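import Pool.Agent.K6.H35.EP.Str
import Pool.Agent.K6.H30.PS.Basic

/-!
# Spaces of polynomials in several variables with arbitrary coefficients
-/

set_option autoImplicit false

namespace Pool.Agent.K6.H35.EP

open Module Finset
open Pool.Agent.HP778 Pool.Agent.K6.H30.PS
open scoped Pointwise

variable {k Ω : Type} [Field k] [Field Ω] [Algebra k Ω] {r : ℕ}

/-- the space spanned by the `t ^ β * c j`, `β i < M` -/
noncomputable def EE (k : Type) [Field k] [Algebra k Ω] (t : Fin r → Ω) {κ : Type} (c : κ → Ω)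
    (M : ℕ) : Submodule k Ω :=
  Submodule.span k (Set.range fun x : (Fin r → Fin M) × κ => (∏ i, t i ^ (x.1 i : ℕ)) * c x.2)

instance (t : Fin r → Ω) {κ : Type} [Finite κ] (c : κ → Ω) (M : ℕ) :
    FiniteDimensional k (EE k t c M) :=
  FiniteDimensional.span_of_finite _ (Set.finite_range _)

theorem finrank_EE_le (t : Fin r → Ω) {κ : Type} [Fintype κ] (c : κ → Ω) (M : ℕ) :
    finrank k (EE k t c M) ≤ M ^ r * Fintype.card κ := by
  refine (finrank_range_le_card (R := k) _).trans ?_
  rw [Fintype.card_prod, Fintype.card_fun, Fintype.card_fin, Fintype.card_fin]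

theorem EE_mul {t : Fin r → Ω} {κ : Type} {c : κ → Ω} {M h : ℕ} (e : Fin r → ℕ)
    (he : ∀ i, e i ≤ h) {x : Ω} (hx : x ∈ EE k t c M) :
    (∏ i, t i ^ e i) * x ∈ EE k t c (M + h) := by
  have h1 : EE k t c M ≤ (EE k t c (M + h)).comap (LinearMap.mulLeft k (∏ i, t i ^ e i)) := by
    unfold EE
    rw [Submodule.span_le]
    rintro _ ⟨y, rfl⟩
    refine Submodule.subset_span ⟨(fun i => ⟨e i + y.1 i, ?_⟩, y.2), ?_⟩
    · have := he i
      have := (y.1 i).2
      omega
    · simp only [LinearMap.mulLeft_apply, pow_add, Finset.prod_mul_distrib]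
      ring
  exact h1 hx

theorem EE_mono {t : Fin r → Ω} {κ : Type} {c : κ → Ω} {M M' : ℕ} (h : M ≤ M') :
    EE k t c M ≤ EE k t c M' := by
  intro x hx
  have h1 := EE_mul (k := k) (t := t) (c := c) (M := M) (h := M' - M) (fun _ => 0)
    (fun _ => Nat.zero_le _) hx
  rw [Nat.add_sub_cancel' h] at h1
  simpa using h1

/-- the growth inequality -/
theorem box_growth {V : Submodule k Ω} (hV : Hyper V) {t : Fin r → Ω}
    {m : ℕ} (f : Fin m → Ω) {L : ℕ}
    (hind : ∀ n : ℕ, LinearIndependent k (fun p : (Fin r → Fin n) × Fin m =>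
        (∏ i, t i ^ (L * (p.1 i : ℕ))) * f p.2))
    {κ : Type} [Fintype κ] (c : κ → Ω) (M b : ℕ) :
    b ^ r * finrank k (EE k t c M ⊓ comb f V : Submodule k Ω) ≤
      (M + L * b) ^ r * Fintype.card κ + (b ^ r * m) * (b ^ r * m) := by
  classical
  let W : Submodule k Ω := EE k t c M ⊓ comb f V
  have : FiniteDimensional k W := Submodule.finiteDimensional_inf_left _ _
  let e : (Fin r → Fin b) ≃ Fin (b ^ r) := finFunctionFinEquiv
  have hprod := prod_space hV (fun q : Fin (b ^ r) => ∏ i, t i ^ (L * (e.symm q i : ℕ))) f ?_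
    W (EE k t c (M + L * b)) ?_ ?_
  · exact hprod.trans (Nat.add_le_add (finrank_EE_le t c _)
      (Nat.mul_le_mul_left _ (Nat.sub_le _ _)))
  · exact (hind b).comp (fun p : Fin (b ^ r) × Fin m => (e.symm p.1, p.2)) (by
      intro p q hpq
      have h1 := congrArg Prod.fst hpq
      have h2 := congrArg Prod.snd hpq
      exact Prod.ext (e.symm.injective h1) h2)
  · intro w hw
    exact hw.2
  · intro w hw q
    exact EE_mul (fun i => L * (e.symm q i : ℕ))
      (fun i => Nat.mul_le_mul_left _ (e.symm q i).2.le) hw.1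

/-- the square root choice -/
theorem box_growth_sqrt {V : Submodule k Ω} (hV : Hyper V) {t : Fin r → Ω}
    {m : ℕ} (f : Fin m → Ω) {L : ℕ}
    (hind : ∀ n : ℕ, LinearIndependent k (fun p : (Fin r → Fin n) × Fin m =>
        (∏ i, t i ^ (L * (p.1 i : ℕ))) * f p.2))
    {κ : Type} [Fintype κ] (c : κ → Ω) (h N : ℕ) :
    finrank k (EE k t c (h * (N + 1)) ⊓ comb f V : Submodule k Ω) ≤
      ((h + L) ^ r * Fintype.card κ + m * m) * (Nat.sqrt N + 1) ^ r := by
  set b := Nat.sqrt N + 1 with hb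
  have hbN : N + 1 ≤ b * b := Nat.succ_le_of_lt (Nat.lt_succ_sqrt N)
  have h1 := box_growth hV f hind c (h * (N + 1)) b
  have hbr : 0 < b ^ r := Nat.pow_pos (by omega)
  refine Nat.le_of_mul_le_mul_left ?_ hbr
  refine h1.trans ?_
  have h2 : h * (N + 1) + L * b ≤ b * ((h + L) * b) := by
    have h3 : h * (N + 1) ≤ h * (b * b) := Nat.mul_le_mul_left _ hbN
    have h4 : L * b ≤ L * (b * b) := Nat.mul_le_mul_left _ (Nat.le_mul_of_pos_left _ (by omega))
    calc h * (N + 1) + L * b ≤ h * (b * b) + L * (b * b) := Nat.add_le_add h3 h4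
      _ = b * ((h + L) * b) := by ring
  have h5 : (h * (N + 1) + L * b) ^ r ≤ b ^ r * ((h + L) ^ r * b ^ r) := by
    rw [← mul_pow, ← mul_pow]
    exact Nat.pow_le_pow_left h2 r
  calc (h * (N + 1) + L * b) ^ r * Fintype.card κ + b ^ r * m * (b ^ r * m) ≤
      b ^ r * ((h + L) ^ r * b ^ r) * Fintype.card κ + b ^ r * m * (b ^ r * m) :=
        Nat.add_le_add_right (Nat.mul_le_mul_right _ h5) _
    _ = b ^ r * (((h + L) ^ r * Fintype.card κ + m * m) * b ^ r) := by ring

/-- every polynomial in the `t i` times `c j` is in some `EE` -/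
theorem aeval_mem_EE (t : Fin r → Ω) {κ : Type} (c : κ → Ω) (p : MvPolynomial (Fin r) k) (j : κ) :
    MvPolynomial.aeval t p * c j ∈ EE k t c (p.totalDegree + 1) := by
  classical
  rw [MvPolynomial.aeval_def, MvPolynomial.eval₂_eq', Finset.sum_mul]
  refine Submodule.sum_mem _ fun s hs => ?_
  rw [mul_assoc, ← Algebra.smul_def]
  apply Submodule.smul_mem
  refine Submodule.subset_span ⟨(fun i => ⟨s i, ?_⟩, j), rfl⟩
  have h1 := MvPolynomial.le_totalDegree hs
  have h2 : s i ≤ s.sum fun _ e => e := by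
    by_cases hi : i ∈ s.support
    · exact Finset.single_le_sum (f := fun i => s i) (fun _ _ => Nat.zero_le _) hi
    · rw [Finsupp.notMem_support_iff.mp hi]
      exact Nat.zero_le _
  omega

/-- **Noether normalization and powers of spaces.** -/
theorem exists_frame (U : Submodule k Ω) [FiniteDimensional k U] :
    ∃ (s : ℕ) (t : Fin s → Ω) (q : ℕ) (a : Fin q → Ω) (h : ℕ), AlgebraicIndependent k t ∧
      s ≤ (Algebra.trdeg k (Algebra.adjoin k (U : Set Ω))).toNat ∧
      ∀ N : ℕ, U ^ N ≤ EE k t a (h * (N + 1)) := by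
  classical
  let A : Subalgebra k Ω := Algebra.adjoin k (U : Set Ω)
  -- `A` is finitely generated
  obtain ⟨S, hS⟩ := (Submodule.fg_iff_finiteDimensional U).mpr inferInstance
  have hA : A = Algebra.adjoin k (S : Set Ω) := by
    apply le_antisymm
    · apply Algebra.adjoin_le
      intro u hu
      rw [SetLike.mem_coe, ← hS] at hu
      exact Algebra.span_le_adjoin k _ hu
    · apply Algebra.adjoin_mono
      rw [← hS]
      exact Submodule.subset_span
  have hfg : Algebra.FiniteType k A := by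
    rw [hA]
    exact Subalgebra.fg_iff_finiteType _ |>.mp ⟨S, rfl⟩
  obtain ⟨s, g, hg, hfin⟩ := exists_finite_inj_algHom_of_fg k A
  let t : Fin s → Ω := fun i => (g (MvPolynomial.X i) : A)
  have hgt : ∀ p : MvPolynomial (Fin s) k, ((g p : A) : Ω) = MvPolynomial.aeval t p := by
    intro p
    have h1 : (A.val.comp g) = MvPolynomial.aeval t := by
      apply MvPolynomial.algHom_ext
      intro i
      simp only [AlgHom.comp_apply, MvPolynomial.aeval_X, Subalgebra.coe_val]
      rfl
    rw [← h1]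
    rfl
  have ht : AlgebraicIndependent k t := by
    intro p p' hpp'
    apply hg
    apply Subtype.ext
    rw [hgt, hgt]
    exact hpp'
  have htr : s ≤ (Algebra.trdeg k A).toNat := by
    have h1 := trdeg_le_of_injective g hg
    rw [MvPolynomial.trdeg_of_isDomain, Cardinal.mk_fin, Cardinal.lift_natCast] at h1
    have h2 : Algebra.trdeg k A < Cardinal.aleph0 := trdeg_lt_aleph0_of_finiteType
    have h3 := Cardinal.toNat_le_toNat h1 h2
    rwa [Cardinal.toNat_natCast] at h3
  -- the generators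
  obtain ⟨q, a', ha'⟩ : ∃ (q : ℕ) (a' : Fin q → A), ∀ x : A, ∃ p : Fin q → MvPolynomial (Fin s) k,
      x = ∑ j, g (p j) * a' j := by
    let _ := g.toRingHom.toAlgebra
    have : Module.Finite (MvPolynomial (Fin s) k) A := hfin
    obtain ⟨q, a', h⟩ := Module.Finite.exists_fin (R := MvPolynomial (Fin s) k) (M := A)
    refine ⟨q, a', fun x => ?_⟩
    have h1 : x ∈ Submodule.span (MvPolynomial (Fin s) k) (Set.range a') := by
      rw [h]
      exact Submodule.mem_top
    obtain ⟨p, hp⟩ := (Submodule.mem_span_range_iff_exists_fun _).mp h1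
    refine ⟨p, ?_⟩
    rw [← hp]
    refine Finset.sum_congr rfl fun j _ => ?_
    rw [Algebra.smul_def]
    rfl
  let a : Fin q → Ω := fun j => (a' j : A)
  have hmem : ∀ x : A, ∃ M, (x : Ω) ∈ EE k t a M := by
    intro x
    obtain ⟨p, hp⟩ := ha' x
    refine ⟨∑ j, ((p j).totalDegree + 1), ?_⟩
    rw [hp, AddSubmonoidClass.coe_finsetSum]
    refine Submodule.sum_mem _ fun j _ => ?_
    have h1 := aeval_mem_EE t a (p j) j
    rw [← hgt] at h1
    exact EE_mono (Finset.single_le_sum (f := fun j => (p j).totalDegree + 1)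
      (fun _ _ => Nat.zero_le _) (Finset.mem_univ j)) h1
  choose Mx hMx using hmem
  let b := Module.finBasis k U
  have hbA : ∀ i, ((b i : U) : Ω) ∈ A := fun i => Algebra.subset_adjoin (b i).2
  let h : ℕ := Mx 1 + ∑ i, ∑ j, Mx (⟨(b i : U), hbA i⟩ * a' j)
  have hstep1 : ∀ u ∈ U, ∀ j, u * a j ∈ EE k t a h := by
    intro u hu j
    have h1 := congrArg (fun z : U => (z : Ω)) (b.sum_repr ⟨u, hu⟩)
    simp only [Submodule.coe_sum, Submodule.coe_smul] at h1
    rw [← h1, Finset.sum_mul]
    refine Submodule.sum_mem _ fun i _ => ?_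
    rw [smul_mul_assoc]
    apply Submodule.smul_mem
    have h2 := hMx (⟨(b i : U), hbA i⟩ * a' j)
    refine EE_mono ?_ h2
    have h3 : Mx (⟨(b i : U), hbA i⟩ * a' j) ≤ ∑ j, Mx (⟨(b i : U), hbA i⟩ * a' j) :=
      Finset.single_le_sum (f := fun j => Mx (⟨(b i : U), hbA i⟩ * a' j))
        (fun _ _ => Nat.zero_le _) (Finset.mem_univ j)
    have h4 : ∑ j, Mx (⟨(b i : U), hbA i⟩ * a' j) ≤
        ∑ i, ∑ j, Mx (⟨(b i : U), hbA i⟩ * a' j) :=
      Finset.single_le_sum (f := fun i => ∑ j, Mx (⟨(b i : U), hbA i⟩ * a' j))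
        (fun _ _ => Nat.zero_le _) (Finset.mem_univ i)
    omega
  have hstep : ∀ M, EE k t a M * U ≤ EE k t a (M + h) := by
    intro M
    rw [Submodule.mul_le]
    intro x hx u hu
    have h1 : EE k t a M ≤ (EE k t a (M + h)).comap (LinearMap.mulRight k u) := by
      conv_lhs => unfold EE
      rw [Submodule.span_le]
      rintro _ ⟨y, rfl⟩
      change (∏ i, t i ^ (y.1 i : ℕ)) * a y.2 * u ∈ EE k t a (M + h)
      rw [mul_assoc, mul_comm (a y.2), add_comm M h]
      exact EE_mul (fun i => (y.1 i : ℕ)) (fun i => (y.1 i).2.le) (hstep1 u hu y.2)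
    exact h1 hx
  refine ⟨s, t, q, a, h, ht, htr, fun N => ?_⟩
  induction N with
  | zero =>
    rw [pow_zero, Submodule.one_le, zero_add, mul_one]
    have h1 := hMx 1
    refine EE_mono ?_ h1
    omega
  | succ N ih =>
    rw [pow_succ]
    refine (mul_le_mul_left ih U).trans ?_
    refine (hstep _).trans (EE_mono ?_)
    rw [mul_add h (N + 1) 1, mul_one]

end Pool.Agent.K6.H35.EP
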