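import Mathlib

/-!
# Exponential polynomials over a ring of polynomials: the number of degrees
-/

set_option autoImplicit false

namespace Pool.Agent.K6.H35.EP

open Module Finset Polynomial

variable {k : Type} [Field k]

/-- the number of the degrees is at most the dimension -/
theorem card_degrees_le (S : Finset ℕ) (g : ℕ → k[X]) (e : ℕ → ℕ)
    (hg : ∀ n ∈ S, (g n).degree = (e n : WithBot ℕ)) :
    (S.image e).card ≤ finrank k (Submodule.span k (g '' (S : Set ℕ))) := by
  classical
  have hs : ∀ v : S.image e, ∃ n ∈ S, e n = v := fun v => by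
    obtain ⟨n, hn, h⟩ := Finset.mem_image.mp v.2
    exact ⟨n, hn, h⟩
  choose s hs1 hs2 using hs
  have hind : LinearIndependent k (fun v : S.image e => g (s v)) := by
    rw [Fintype.linearIndependent_iff]
    intro c hc v
    by_contra hv
    have h1 := degree_sum_eq_of_disjoint (fun v : S.image e => c v • g (s v)) Finset.univ ?_
    · have h2 : ∑ v : S.image e, c v • g (s v) = 0 := hc
      rw [h2, degree_zero] at h1
      have h3 : (c v • g (s v)).degree ≤
          Finset.univ.sup fun v : S.image e => (c v • g (s v)).degree :=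
        Finset.le_sup (f := fun v : S.image e => (c v • g (s v)).degree) (Finset.mem_univ v)
      rw [← h1, smul_eq_C_mul, degree_C_mul hv, hg _ (hs1 v)] at h3
      exact absurd (le_bot_iff.mp h3) (WithBot.coe_ne_bot)
    · intro v1 hv1 v2 hv2 hne
      have hc1 : c v1 ≠ 0 := fun h => hv1.2 (by simp only [h, zero_smul])
      have hc2 : c v2 ≠ 0 := fun h => hv2.2 (by simp only [h, zero_smul])
      change (c v1 • g (s v1)).degree ≠ (c v2 • g (s v2)).degree
      rw [smul_eq_C_mul, smul_eq_C_mul, degree_C_mul hc1, degree_C_mul hc2, hg _ (hs1 v1),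
        hg _ (hs1 v2)]
      intro h
      apply hne
      apply Subtype.ext
      rw [← hs2 v1, ← hs2 v2]
      exact_mod_cast h
  have h1 := finrank_span_eq_card hind
  rw [Fintype.card_coe] at h1
  rw [← h1]
  have : FiniteDimensional k (Submodule.span k (g '' (S : Set ℕ))) :=
    FiniteDimensional.span_of_finite _ (S.finite_toSet.image g)
  apply Submodule.finrank_mono
  apply Submodule.span_mono
  rintro _ ⟨v, rfl⟩
  exact ⟨s v, hs1 v, rfl⟩

/-- a convex function takes every value at most twice -/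
theorem card_le_two_mul {ι : Type} (J : Finset ι) (hJ : J.Nonempty) (a : ι → ℤ)
    (ha : ∀ j ∈ J, a j ≠ 0) (δ : ι → ℕ) (N M : ℕ) (hM : ∀ j, ∀ n < N, 0 ≤ (n : ℤ) * a j + M)
    (S : Finset ℕ) (hS : ∀ n ∈ S, n < N) :
    S.card ≤ 2 * (S.image fun n : ℕ => J.sup fun j => ((n : ℤ) * a j + M).toNat + δ j).card := by
  classical
  have key : ∀ x y z : ℕ, x < y → y < z → z < N →
      (J.sup fun j => ((x : ℤ) * a j + M).toNat + δ j) =
        (J.sup fun j => ((y : ℤ) * a j + M).toNat + δ j) →
      (J.sup fun j => ((z : ℤ) * a j + M).toNat + δ j) =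
        (J.sup fun j => ((y : ℤ) * a j + M).toNat + δ j) → False := by
    intro x y z hxy hyz hz h1 h2
    obtain ⟨j, hj, h3⟩ := Finset.exists_mem_eq_sup J hJ
      (fun j => ((y : ℤ) * a j + M).toNat + δ j)
    have h4 := Finset.le_sup (f := fun j => ((x : ℤ) * a j + M).toNat + δ j) hj
    have h5 := Finset.le_sup (f := fun j => ((z : ℤ) * a j + M).toNat + δ j) hj
    rw [h1, h3] at h4
    rw [h2, h3] at h5
    have hx0 := hM j x (by omega)
    have hy0 := hM j y (by omega)
    have hz0 := hM j z hz
    rcases lt_or_gt_of_ne (ha j hj) with h6 | h6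
    · have h7 : (y : ℤ) * a j < x * a j := mul_lt_mul_of_neg_right (by exact_mod_cast hxy) h6
      omega
    · have h7 : (y : ℤ) * a j < z * a j := mul_lt_mul_of_pos_right (by exact_mod_cast hyz) h6
      omega
  apply Finset.card_le_mul_card_image
  intro v _
  by_contra hcon
  rw [not_le, Finset.two_lt_card] at hcon
  obtain ⟨x, hx, y, hy, z, hz, hxy, hxz, hyz⟩ := hcon
  rw [Finset.mem_filter] at hx hy hz
  have hxN := hS x hx.1
  have hyN := hS y hy.1
  have hzN := hS z hz.1
  have hx' := hx.2
  have hy' := hy.2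
  have hz' := hz.2
  rcases lt_trichotomy x y with h1 | h1 | h1
  · rcases lt_trichotomy y z with h2 | h2 | h2
    · exact key x y z h1 h2 hzN (hx'.trans hy'.symm) (hz'.trans hy'.symm)
    · exact hyz h2
    · rcases lt_trichotomy x z with h3 | h3 | h3
      · exact key x z y h3 h2 hyN (hx'.trans hz'.symm) (hy'.trans hz'.symm)
      · exact hxz h3
      · exact key z x y h3 h1 hyN (hz'.trans hx'.symm) (hy'.trans hx'.symm)
  · exact hxy h1
  · rcases lt_trichotomy x z with h2 | h2 | h2
    · exact key y x z h1 h2 hzN (hy'.trans hx'.symm) (hz'.trans hx'.symm)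
    · exact hxz h2
    · rcases lt_trichotomy y z with h3 | h3 | h3
      · exact key y z x h3 h2 hxN (hy'.trans hz'.symm) (hx'.trans hz'.symm)
      · exact hyz h3
      · exact key z y x h3 h1 hxN (hz'.trans hy'.symm) (hx'.trans hy'.symm)

/-- the coefficient -/
noncomputable def Qn (d : ℕ) (π : ℕ → k[X]) (n : ℕ) : k[X] :=
  ∑ i ∈ Finset.range (d + 1), C ((n : k) ^ i) * π i

/-- the exponential polynomial -/
noncomputable def Tn {ι : Type} [Fintype ι] (a : ι → ℤ) (d : ℕ) (π : ι → ℕ → k[X]) (M n : ℕ) :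
    k[X] :=
  ∑ j, X ^ (((n : ℤ) * a j + M).toNat) * Qn d (π j) n

/-- the degree of a coefficient is constant, with at most `d` exceptions -/
theorem exists_degree [CharZero k] (d : ℕ) (π : ℕ → k[X]) (hπ : ∃ i ≤ d, π i ≠ 0) :
    ∃ (δ : ℕ) (E : Finset ℕ), E.card ≤ d ∧ ∀ n : ℕ, n ∉ E → (Qn d π n).degree = (δ : WithBot ℕ) := by
  classical
  let I := (Finset.range (d + 1)).filter fun i => π i ≠ 0
  have hI : I.Nonempty := by
    obtain ⟨i, hi, h⟩ := hπ
    exact ⟨i, Finset.mem_filter.mpr ⟨Finset.mem_range.mpr (by omega), h⟩⟩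
  let δ := I.sup fun i => (π i).natDegree
  obtain ⟨i₀, hi₀, hδ⟩ := Finset.exists_mem_eq_sup I hI (fun i => (π i).natDegree)
  have hδ' : δ = (π i₀).natDegree := hδ
  have hle : ∀ i ∈ Finset.range (d + 1), (π i).natDegree ≤ δ := by
    intro i hi
    by_cases h : π i = 0
    · rw [h, natDegree_zero]; exact Nat.zero_le _
    · exact Finset.le_sup (f := fun i => (π i).natDegree) (Finset.mem_filter.mpr ⟨hi, h⟩)
  let lam : k[X] := ∑ i ∈ Finset.range (d + 1), C ((π i).coeff δ) * X ^ i
  have hlam : lam ≠ 0 := by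
    intro h0
    have h1 := congrArg (fun P : k[X] => P.coeff i₀) h0
    simp only [lam, finsetSum_coeff, coeff_C_mul, coeff_X_pow, coeff_zero] at h1
    rw [Finset.sum_eq_single i₀] at h1
    · rw [if_pos rfl, mul_one, hδ'] at h1
      exact (Finset.mem_filter.mp hi₀).2 (leadingCoeff_eq_zero.mp h1)
    · intro i _ hi
      rw [if_neg (Ne.symm hi), mul_zero]
    · intro h
      exact absurd (Finset.mem_filter.mp hi₀).1 h
  have hlamd : lam.natDegree ≤ d := by
    apply natDegree_sum_le_of_forall_le
    intro i hi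
    refine (natDegree_C_mul_X_pow_le _ _).trans ?_
    have := Finset.mem_range.mp hi
    omega
  let inj : ℕ ↪ k := ⟨fun n => (n : k), Nat.cast_injective⟩
  let E : Finset ℕ := lam.roots.toFinset.preimage (fun n : ℕ => (n : k))
    (Nat.cast_injective.injOn)
  have hE : E.card ≤ d := by
    have h1 : (E.map inj).card ≤ lam.roots.toFinset.card := by
      apply Finset.card_le_card
      intro x hx
      obtain ⟨n, hn, rfl⟩ := Finset.mem_map.mp hx
      exact Finset.mem_preimage.mp hn
    rw [Finset.card_map] at h1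
    exact h1.trans ((Multiset.toFinset_card_le _).trans ((card_roots' _).trans hlamd))
  refine ⟨δ, E, hE, fun n hn => ?_⟩
  have hcoef : (Qn d π n).coeff δ = lam.eval (n : k) := by
    simp only [Qn, lam, finsetSum_coeff, coeff_C_mul, eval_finsetSum, eval_mul, eval_C, eval_pow,
      eval_X]
    refine Finset.sum_congr rfl fun i _ => ?_
    ring
  have hne : (Qn d π n).coeff δ ≠ 0 := by
    rw [hcoef]
    intro h0
    apply hn
    rw [Finset.mem_preimage, Multiset.mem_toFinset, mem_roots hlam]
    exact h0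
  have hQ0 : Qn d π n ≠ 0 := by
    intro h0
    rw [h0, coeff_zero] at hne
    exact hne rfl
  rw [degree_eq_natDegree hQ0]
  congr 1
  apply le_antisymm
  · apply natDegree_sum_le_of_forall_le
    intro i hi
    exact (natDegree_C_mul_le _ _).trans (hle i hi)
  · exact le_natDegree_of_ne_zero hne

/-- **The degree lemma.** -/
theorem degree_lemma [CharZero k] {ι : Type} [Fintype ι] (a : ι → ℤ)
    (ha : Function.Injective a) (d : ℕ) (π : ι → ℕ → k[X])
    (hπ : ∃ j, a j ≠ 0 ∧ ∃ i ≤ d, π j i ≠ 0) (N M : ℕ)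
    (hM : ∀ j, ∀ n < N, 0 ≤ (n : ℤ) * a j + M) (S : Finset ℕ) (hS : ∀ n ∈ S, n < N) :
    S.card ≤ 2 * finrank k (Submodule.span k (Tn a d π M '' (S : Set ℕ))) +
      (2 * (d + 1) + (d * Fintype.card ι + Fintype.card ι ^ 2)) := by
  classical
  let J : Finset ι := Finset.univ.filter fun j => a j ≠ 0 ∧ ∃ i ≤ d, π j i ≠ 0
  have hJ : J.Nonempty := by
    obtain ⟨j, hj⟩ := hπ
    exact ⟨j, Finset.mem_filter.mpr ⟨Finset.mem_univ _, hj⟩⟩
  have hJa : ∀ j ∈ J, a j ≠ 0 := fun j hj => (Finset.mem_filter.mp hj).2.1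
  have hdeg : ∀ j : ι, ∃ (δ : ℕ) (E : Finset ℕ), E.card ≤ d ∧
      (j ∈ J → ∀ n : ℕ, n ∉ E → (Qn d (π j) n).degree = (δ : WithBot ℕ)) := by
    intro j
    by_cases hj : j ∈ J
    · obtain ⟨δ, E, h1, h2⟩ := exists_degree d (π j) (Finset.mem_filter.mp hj).2.2
      exact ⟨δ, E, h1, fun _ => h2⟩
    · exact ⟨0, ∅, by simp, fun h => absurd h hj⟩
  choose δ E hE hδ using hdeg
  -- the ties
  let tie : ι × ι → Finset ℕ := fun p =>
    if p.1 = p.2 then ∅ else S.filter fun n => (δ p.1 : ℤ) + n * a p.1 = δ p.2 + n * a p.2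
  have htie : ∀ p, (tie p).card ≤ 1 := by
    intro p
    simp only [tie]
    split_ifs with h
    · simp
    · rw [Finset.card_le_one]
      intro x hx y hy
      rw [Finset.mem_filter] at hx hy
      have hne : a p.1 - a p.2 ≠ 0 := fun h0 => h (ha (sub_eq_zero.mp h0))
      have h1 : ((x : ℤ) - y) * (a p.1 - a p.2) = 0 := by
        have := hx.2
        have := hy.2
        nlinarith
      rcases mul_eq_zero.mp h1 with h2 | h2
      · exact_mod_cast sub_eq_zero.mp h2
      · exact absurd h2 hne
  let Bad : Finset ℕ := (Finset.univ.biUnion E) ∪ (Finset.univ.biUnion tie)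
  have hBad : Bad.card ≤ d * Fintype.card ι + Fintype.card ι ^ 2 := by
    refine (Finset.card_union_le _ _).trans (Nat.add_le_add ?_ ?_)
    · refine (Finset.card_biUnion_le).trans ?_
      refine (Finset.sum_le_sum fun j _ => hE j).trans ?_
      rw [Finset.sum_const, smul_eq_mul, Finset.card_univ, mul_comm]
    · refine (Finset.card_biUnion_le).trans ?_
      refine (Finset.sum_le_sum fun p _ => htie p).trans ?_
      rw [Finset.sum_const, smul_eq_mul, Finset.card_univ, Fintype.card_prod, mul_one, sq]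
  let S' := S \ Bad
  have hSS' : S.card ≤ S'.card + Bad.card := by
    have := Finset.card_le_card_sdiff_add_card (s := S) (t := Bad)
    exact this
  have hS' : ∀ n ∈ S', n < N := fun n hn => hS n (Finset.mem_sdiff.mp hn).1
  -- the main part
  let T' : ℕ → k[X] := fun n => ∑ j ∈ J, X ^ (((n : ℤ) * a j + M).toNat) * Qn d (π j) n
  let D : ℕ → ℕ := fun n => J.sup fun j => ((n : ℤ) * a j + M).toNat + δ j
  have hterm : ∀ n ∈ S', ∀ j ∈ J, (X ^ (((n : ℤ) * a j + M).toNat) * Qn d (π j) n).degree =
      ((((n : ℤ) * a j + M).toNat + δ j : ℕ) : WithBot ℕ) := by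
    intro n hn j hj
    rw [degree_mul, degree_X_pow, hδ j hj n, Nat.cast_add]
    intro hnE
    refine (Finset.mem_sdiff.mp hn).2 (Finset.mem_union_left _ ?_)
    exact Finset.mem_biUnion.mpr ⟨j, Finset.mem_univ _, hnE⟩
  have hT'deg : ∀ n ∈ S', (T' n).degree = (D n : WithBot ℕ) := by
    intro n hn
    have h1 := degree_sum_eq_of_disjoint
      (fun j => X ^ (((n : ℤ) * a j + M).toNat) * Qn d (π j) n) J ?_
    · change (∑ j ∈ J, X ^ (((n : ℤ) * a j + M).toNat) * Qn d (π j) n).degree = _
      rw [h1]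
      obtain ⟨j₀, hj₀, h2⟩ := Finset.exists_mem_eq_sup J hJ
        (fun j => ((n : ℤ) * a j + M).toNat + δ j)
      have h2' : D n = ((n : ℤ) * a j₀ + M).toNat + δ j₀ := h2
      apply le_antisymm
      · apply Finset.sup_le
        intro j hj
        rw [hterm n hn j hj]
        have h3 : ((n : ℤ) * a j + M).toNat + δ j ≤ D n :=
          Finset.le_sup (f := fun j => ((n : ℤ) * a j + M).toNat + δ j) hj
        exact_mod_cast h3
      · rw [h2', ← hterm n hn j₀ hj₀]
        exact Finset.le_sup (f := fun j =>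
          (X ^ (((n : ℤ) * a j + M).toNat) * Qn d (π j) n).degree) hj₀
    · intro j hj j' hj' hne
      change (X ^ (((n : ℤ) * a j + M).toNat) * Qn d (π j) n).degree ≠
        (X ^ (((n : ℤ) * a j' + M).toNat) * Qn d (π j') n).degree
      rw [hterm n hn j hj.1, hterm n hn j' hj'.1]
      intro h
      have h3 : ((n : ℤ) * a j + M).toNat + δ j = ((n : ℤ) * a j' + M).toNat + δ j' := by
        exact_mod_cast h
      have hnN := hS' n hn
      have h4 := hM j n hnN
      have h5 := hM j' n hnN
      refine (Finset.mem_sdiff.mp hn).2 (Finset.mem_union_right _ ?_)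
      refine Finset.mem_biUnion.mpr ⟨(j, j'), Finset.mem_univ _, ?_⟩
      simp only [tie]
      rw [if_neg hne, Finset.mem_filter]
      refine ⟨(Finset.mem_sdiff.mp hn).1, ?_⟩
      omega
  have h1 : S'.card ≤ 2 * (S'.image D).card := card_le_two_mul J hJ a hJa δ N M hM S' hS'
  have h2 := card_degrees_le S' T' D hT'deg
  -- the exponent zero
  let u : Fin (d + 1) → k[X] := fun i => X ^ M * ∑ j ∈ Finset.univ.filter (fun j => a j = 0), π j i
  have hT : ∀ n, T' n = Tn a d π M n -
      ∑ j ∈ Finset.univ.filter (fun j => a j = 0), X ^ M * Qn d (π j) n := by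
    intro n
    rw [eq_sub_iff_add_eq]
    have h3 : Tn a d π M n = ∑ j ∈ Finset.univ.filter (fun j => a j = 0),
        X ^ (((n : ℤ) * a j + M).toNat) * Qn d (π j) n +
        ∑ j ∈ Finset.univ.filter (fun j => ¬ a j = 0),
          X ^ (((n : ℤ) * a j + M).toNat) * Qn d (π j) n :=
      (Finset.sum_filter_add_sum_filter_not _ _ _).symm
    rw [h3, add_comm]
    congr 1
    · refine Finset.sum_congr rfl fun j hj => ?_
      rw [(Finset.mem_filter.mp hj).2, mul_zero, zero_add, Int.toNat_natCast]
    · symm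
      apply Finset.sum_subset_zero_on_sdiff ?_ ?_ (fun _ _ => rfl) |>.symm
      · intro j hj
        rw [Finset.mem_filter] at hj ⊢
        exact ⟨hj.1, hj.2.1⟩
      · intro j hj
        rw [Finset.mem_sdiff, Finset.mem_filter, Finset.mem_filter] at hj
        have h4 : ∀ i ≤ d, π j i = 0 := by
          intro i hi
          by_contra hcon
          exact hj.2 ⟨Finset.mem_univ _, hj.1.2, i, hi, hcon⟩
        have h5 : Qn d (π j) n = 0 := by
          unfold Qn
          refine Finset.sum_eq_zero fun i hi => ?_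
          have := Finset.mem_range.mp hi
          rw [h4 i (by omega), mul_zero]
        rw [h5, mul_zero]
  have hfd1 : FiniteDimensional k (Submodule.span k (Tn a d π M '' (S : Set ℕ))) :=
    FiniteDimensional.span_of_finite _ (S.finite_toSet.image _)
  have hfd2 : FiniteDimensional k (Submodule.span k (Set.range u)) :=
    FiniteDimensional.span_of_finite _ (Set.finite_range _)
  have h3 : Submodule.span k (T' '' (S' : Set ℕ)) ≤
      Submodule.span k (Tn a d π M '' (S : Set ℕ)) ⊔ Submodule.span k (Set.range u) := by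
    rw [Submodule.span_le]
    rintro _ ⟨n, hn, rfl⟩
    rw [SetLike.mem_coe, hT n]
    apply Submodule.sub_mem
    · exact Submodule.mem_sup_left (Submodule.subset_span
        ⟨n, (Finset.mem_sdiff.mp hn).1, rfl⟩)
    · apply Submodule.mem_sup_right
      have h4 : ∑ j ∈ Finset.univ.filter (fun j => a j = 0), X ^ M * Qn d (π j) n =
          ∑ i : Fin (d + 1), ((n : k) ^ (i : ℕ)) • u i := by
        simp only [u, Qn, smul_eq_C_mul]
        rw [Finset.sum_congr rfl (fun j _ => by
          rw [Finset.sum_range, Finset.mul_sum]), Finset.sum_comm]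
        refine Finset.sum_congr rfl fun i _ => ?_
        rw [Finset.mul_sum, Finset.mul_sum]
        refine Finset.sum_congr rfl fun j _ => ?_
        ring
      rw [h4]
      exact Submodule.sum_mem _ fun i _ => Submodule.smul_mem _ _
        (Submodule.subset_span ⟨i, rfl⟩)
  have h4 : finrank k (Submodule.span k (T' '' (S' : Set ℕ))) ≤
      finrank k (Submodule.span k (Tn a d π M '' (S : Set ℕ))) + (d + 1) := by
    refine (Submodule.finrank_mono h3).trans ?_
    refine (Submodule.finrank_add_le_finrank_add_finrank _ _).trans ?_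
    apply Nat.add_le_add_left
    refine (finrank_range_le_card (R := k) u).trans ?_
    rw [Fintype.card_fin]
  omega

end Pool.Agent.K6.H35.EP
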