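import Pool.Agent.K6.H35.EP.Upp
import Pool.Agent.K6.H30.PS.Main

/-!
# Exponential polynomials and linear forms in logarithms: the count
-/

set_option autoImplicit false

namespace Pool.Agent.K6.H35.EP

open Module Finset
open Pool.Agent.HP778 Pool.Agent.HP778.KZ Pool.Agent.K6.H30.PS
open Pool.Agent.H301R2.SSE (QB mem_QB Lt)

section gen

variable {k Ω : Type} [Field k] [Field Ω] [Algebra k Ω] {r : ℕ}

theorem count_bound [CharZero k] {V : Submodule k Ω} (hV : Hyper V) {t : Fin r → Ω}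
    (ht : AlgebraicIndependent k t) (F : Submodule k Ω) [FiniteDimensional k F]
    {ι : Type} [Fintype ι] (γ : ι → Fin r → ℤ) (hγ : Function.Injective γ) (d : ℕ) :
    ∃ C : ℕ, ∀ c : ι → ℕ → Ω, (∃ j, γ j ≠ 0 ∧ ∃ i ≤ d, c j i ≠ 0) → ∀ (N : ℕ) (S : Finset ℕ),
      (∀ n ∈ S, n < N ∧ val t γ d c n ∈ F * V) → ∀ b : ℕ, 1 ≤ b →
        S.card ≤ C * (N / b + 1) + C * b ^ r := by
  classical
  let f := Module.finBasis k F
  have hf : LinearIndependent k (fun j => ((f j : F) : Ω)) :=
    f.linearIndependent.map' F.subtype F.ker_subtype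
  obtain ⟨L, hL, hind⟩ := exists_dilation_box ht _ hf
  let G : ℕ := ∑ j, ∑ i, (γ j i).natAbs
  have hG : ∀ j i, (γ j i).natAbs ≤ G := by
    intro j i
    exact (Finset.single_le_sum (f := fun i => (γ j i).natAbs) (fun _ _ => Nat.zero_le _)
      (Finset.mem_univ i)).trans (Finset.single_le_sum (f := fun j => ∑ i, (γ j i).natAbs)
        (fun _ _ => Nat.zero_le _) (Finset.mem_univ j))
  let C1 := Fintype.card ι * (d + 1) * (2 * G + L) ^ r
  let C2 := finrank k F * finrank k F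
  let C3 := 2 * (d + 1) + (d * Fintype.card ι + Fintype.card ι ^ 2)
  refine ⟨2 * C1 + 2 * C2 + C3, fun c hc N S hS b hb => ?_⟩
  have h1 := lower_bound ht γ hγ d c hc S
  have h2 := upper_bound hV (fun i => ht.ne_zero i) _ hL hind γ G hG d c N S
    (fun n hn => (hS n hn).1) (fun n hn => comb_le f (hS n hn).2) b hb
  calc S.card ≤ 2 * (C1 * (N / b + 1) + C2 * b ^ r) + C3 := by
        refine h1.trans (Nat.add_le_add_right (Nat.mul_le_mul_left _ h2) _)
    _ ≤ 2 * (C1 * (N / b + 1) + C2 * b ^ r) + C3 * (N / b + 1) := by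
        apply Nat.add_le_add_left
        exact Nat.le_mul_of_pos_right _ (Nat.succ_pos _)
    _ ≤ (2 * C1 + 2 * C2 + C3) * (N / b + 1) + (2 * C1 + 2 * C2 + C3) * b ^ r := by
        have h3 : 2 * C1 * (N / b + 1) + C3 * (N / b + 1) ≤
            (2 * C1 + 2 * C2 + C3) * (N / b + 1) := by
          rw [← Nat.add_mul]
          apply Nat.mul_le_mul_right
          omega
        have h4 : 2 * C2 * b ^ r ≤ (2 * C1 + 2 * C2 + C3) * b ^ r :=
          Nat.mul_le_mul_right _ (by omega)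
        nlinarith

end gen

/-- the optimal choice of `b` -/
theorem opt_choice {r C s N : ℕ} (hN : 1 ≤ N)
    (h : ∀ b : ℕ, 1 ≤ b → s ≤ C * (N / b + 1) + C * b ^ r) :
    (s : ℝ) ≤ (C * (2 ^ r + 2) : ℕ) * (N : ℝ) ^ ((r : ℝ) / (r + 1)) := by
  have hNR : (1 : ℝ) ≤ N := by exact_mod_cast hN
  have hN0 : (0 : ℝ) < N := by linarith
  have hr1 : (0 : ℝ) < (r : ℝ) + 1 := by positivity
  set x : ℝ := (N : ℝ) ^ (1 / ((r : ℝ) + 1)) with hx
  set y : ℝ := (N : ℝ) ^ ((r : ℝ) / (r + 1)) with hy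
  have hx1 : 1 ≤ x := Real.one_le_rpow hNR (by positivity)
  have hy1 : 1 ≤ y := Real.one_le_rpow hNR (by positivity)
  have hxr : x ^ r = y := by
    rw [hx, hy, ← Real.rpow_natCast, ← Real.rpow_mul hN0.le]
    congr 1
    ring
  have hxy : (N : ℝ) = x * y := by
    rw [hx, hy, ← Real.rpow_add hN0]
    have : 1 / ((r : ℝ) + 1) + (r : ℝ) / (r + 1) = 1 := by
      rw [← add_div, add_comm, div_self hr1.ne']
    rw [this, Real.rpow_one]
  set b := ⌊x⌋₊ + 1 with hb
  have hb1 : x < b := by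
    rw [hb]; push_cast
    exact Nat.lt_floor_add_one _
  have hb2 : (b : ℝ) ≤ 2 * x := by
    rw [hb]; push_cast
    have := Nat.floor_le (by linarith : 0 ≤ x)
    linarith
  have h1 := h b (by omega)
  have h2 : (s : ℝ) ≤ C * ((N / b : ℕ) + 1) + C * (b : ℝ) ^ r := by exact_mod_cast h1
  have h3 : ((N / b : ℕ) : ℝ) ≤ y := by
    refine (Nat.cast_div_le).trans ?_
    rw [div_le_iff₀ (by linarith), hxy, mul_comm]
    exact mul_le_mul_of_nonneg_left hb1.le (by linarith)
  have h4 : (b : ℝ) ^ r ≤ 2 ^ r * y := by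
    rw [← hxr, ← mul_pow]
    exact pow_le_pow_left₀ (Nat.cast_nonneg _) hb2 r
  have hC : (0 : ℝ) ≤ C := Nat.cast_nonneg _
  calc (s : ℝ) ≤ C * ((N / b : ℕ) + 1) + C * (b : ℝ) ^ r := h2
    _ ≤ C * (y + y) + C * (2 ^ r * y) := by
      apply add_le_add
      · exact mul_le_mul_of_nonneg_left (by linarith) hC
      · exact mul_le_mul_of_nonneg_left h4 hC
    _ = _ := by
      push_cast
      ring

theorem real_bound {V : Submodule QB ℂ} (hV : Hyper (k := QB) (Ω := ℂ) V) {r : ℕ} {t : Fin r → ℂ}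
    (ht : AlgebraicIndependent QB t) (F : Submodule QB ℂ) [FiniteDimensional QB F]
    {m : ℕ} (γ : Fin m → Fin r → ℤ) (hγ : Function.Injective γ) (d : ℕ) :
    ∃ C : ℝ, ∀ P : Fin m → Polynomial ℂ, (∀ j, (P j).natDegree ≤ d) →
      (∃ j, γ j ≠ 0 ∧ P j ≠ 0) → ∀ (N : ℕ) (S : Finset ℕ),
      (∀ n ∈ S, n < N ∧ ∑ j, (P j).eval (n : ℂ) * (∏ i, t i ^ (γ j i)) ^ n ∈ F * V) →
        (S.card : ℝ) ≤ C * (N : ℝ) ^ ((r : ℝ) / (r + 1)) := by
  classical
  obtain ⟨C, hC⟩ := count_bound (k := QB) hV ht F γ hγ d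
  refine ⟨(C * (2 ^ r + 2) : ℕ), fun P hP hne N S hS => ?_⟩
  rcases Nat.eq_zero_or_pos N with rfl | hN
  · have h0 : S = ∅ := by
      rw [Finset.eq_empty_iff_forall_notMem]
      intro n hn
      exact absurd (hS n hn).1 (Nat.not_lt_zero n)
    rw [h0, Finset.card_empty, Nat.cast_zero]
    exact mul_nonneg (Nat.cast_nonneg _) (Real.rpow_nonneg le_rfl _)
  · apply opt_choice hN
    apply hC (fun j i => (P j).coeff i)
    · obtain ⟨j, hj, hPj⟩ := hne
      refine ⟨j, hj, (P j).natDegree, hP j, ?_⟩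
      exact Polynomial.leadingCoeff_ne_zero.mpr hPj
    · intro n hn
      refine ⟨(hS n hn).1, ?_⟩
      have h1 : val t γ d (fun j i => (P j).coeff i) n =
          ∑ j, (P j).eval (n : ℂ) * (∏ i, t i ^ (γ j i)) ^ n := by
        unfold val
        refine Finset.sum_congr rfl fun j _ => ?_
        rw [Polynomial.eval_eq_sum_range' (by have := hP j; omega : (P j).natDegree < d + 1)]
        rfl
      rw [h1]
      exact (hS n hn).2

/-- exponentials of independent algebraic numbers are algebraically independent -/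
theorem algInd_exp {r : ℕ} (β : Fin r → ℂ) (hβ : ∀ i, IsAlgebraic ℚ (β i))
    (hind : LinearIndependent ℤ β) : AlgebraicIndependent QB (fun i => Complex.exp (β i)) := by
  classical
  rw [algebraicIndependent_iff]
  intro P hP
  let g : (Fin r →₀ ℕ) → ℂ := fun s => ∑ i, (s i : ℂ) * β i
  have hg : Function.Injective g := by
    intro a b hab
    have h1 : ∑ i, ((a i : ℤ) - b i) • β i = 0 := by
      have h2 : ∑ i, ((a i : ℂ) - b i) * β i = 0 := by
        simp only [sub_mul, Finset.sum_sub_distrib]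
        exact sub_eq_zero.mpr hab
      rw [← h2]
      refine Finset.sum_congr rfl fun i _ => ?_
      rw [zsmul_eq_mul]
      push_cast
      ring
    have h2 := Fintype.linearIndependent_iff.mp hind _ h1
    ext i
    have h3 := h2 i
    omega
  have h := Pool.Agent.H340R2.LW.lindemann_weierstrass P.support g
    (fun s => ((MvPolynomial.coeff s P : QB) : ℂ)) ?_ ?_ hg.injOn ?_
  · refine MvPolynomial.ext _ _ fun s => ?_
    rw [MvPolynomial.coeff_zero]
    by_cases hs : s ∈ P.support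
    · have h1 := h s hs
      exact_mod_cast h1
    · exact MvPolynomial.notMem_support_iff.mp hs
  · intro s _
    exact Finset.sum_induction _ (fun z => IsAlgebraic ℚ z) (fun a b ha hb => ha.add hb)
      isAlgebraic_zero (fun i _ => (isAlgebraic_natCast (s i)).mul (hβ i))
  · intro s _
    exact mem_QB.mp (MvPolynomial.coeff s P).2
  · rw [MvPolynomial.aeval_def, MvPolynomial.eval₂_eq'] at hP
    rw [← hP]
    refine Finset.sum_congr rfl fun s _ => ?_
    have h1 : Complex.exp (g s) = ∏ i, Complex.exp (β i) ^ s i := by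
      simp only [g]
      rw [Complex.exp_sum]
      refine Finset.prod_congr rfl fun i _ => ?_
      rw [← Complex.exp_nat_mul]
    rw [h1]
    rfl

theorem exp_bound {V : Submodule QB ℂ} (hV : Hyper (k := QB) (Ω := ℂ) V)
    (F : Submodule QB ℂ) [FiniteDimensional QB F] {m : ℕ} (α : Fin m → ℂ)
    (hα : ∀ j, IsAlgebraic ℚ (α j)) (hinj : Function.Injective α) (d : ℕ) :
    ∃ C : ℝ, ∀ P : Fin m → Polynomial ℂ, (∀ j, (P j).natDegree ≤ d) →
      (∃ j, α j ≠ 0 ∧ P j ≠ 0) → ∀ (N : ℕ) (S : Finset ℕ),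
      (∀ n ∈ S, n < N ∧ ∑ j, (P j).eval (n : ℂ) * Complex.exp (n * α j) ∈ F * V) →
        (S.card : ℝ) ≤ C * (N : ℝ) ^ ((finrank ℤ (Submodule.span ℤ (Set.range α)) : ℝ) /
          (finrank ℤ (Submodule.span ℤ (Set.range α)) + 1)) := by
  classical
  let Λ : Submodule ℤ ℂ := Submodule.span ℤ (Set.range α)
  have : Module.Finite ℤ Λ := Module.Finite.span_of_finite _ (Set.finite_range α)
  have : Module.Free ℤ Λ := Module.free_of_finite_type_torsion_free'
  let b := Module.finBasis ℤ Λ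
  let r := finrank ℤ Λ
  let β : Fin r → ℂ := fun i => ((b i : Λ) : ℂ)
  have hβind : LinearIndependent ℤ β := b.linearIndependent.map' Λ.subtype Λ.ker_subtype
  have hΛ : ∀ z ∈ Λ, IsAlgebraic ℚ z := by
    intro z hz
    refine Submodule.span_induction ?_ ?_ ?_ ?_ hz
    · rintro _ ⟨j, rfl⟩
      exact hα j
    · exact isAlgebraic_zero
    · intro x y _ _ hx hy
      exact hx.add hy
    · intro a x _ hx
      rw [zsmul_eq_mul]
      exact (isAlgebraic_intCast a).mul hx
  have hβ : ∀ i, IsAlgebraic ℚ (β i) := fun i => hΛ _ (b i).2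
  have ht := algInd_exp β hβ hβind
  let α' : Fin m → Λ := fun j => ⟨α j, Submodule.subset_span ⟨j, rfl⟩⟩
  let γ : Fin m → Fin r → ℤ := fun j i => b.repr (α' j) i
  have hγα : ∀ j, α j = ∑ i, (γ j i : ℂ) * β i := by
    intro j
    have h1 := congrArg (fun z : Λ => (z : ℂ)) (b.sum_repr (α' j))
    simp only [Submodule.coe_sum, Submodule.coe_smul] at h1
    rw [show α j = ((α' j : Λ) : ℂ) from rfl, ← h1]
    refine Finset.sum_congr rfl fun i _ => ?_
    rw [zsmul_eq_mul]
  have hγ : Function.Injective γ := by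
    intro j j' h
    apply hinj
    rw [hγα j, hγα j', h]
  obtain ⟨C, hC⟩ := real_bound hV ht F γ hγ d
  refine ⟨C, fun P hP hne N S hS => hC P hP ?_ N S ?_⟩
  · obtain ⟨j, hj, hPj⟩ := hne
    refine ⟨j, fun h0 => hj ?_, hPj⟩
    rw [hγα j, h0]
    simp
  · intro n hn
    refine ⟨(hS n hn).1, ?_⟩
    have h1 : ∑ j, (P j).eval (n : ℂ) * (∏ i, Complex.exp (β i) ^ (γ j i)) ^ n =
        ∑ j, (P j).eval (n : ℂ) * Complex.exp (n * α j) := by
      refine Finset.sum_congr rfl fun j _ => ?_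
      congr 1
      rw [hγα j, Complex.exp_nat_mul, Complex.exp_sum]
      congr 1
      refine Finset.prod_congr rfl fun i _ => ?_
      rw [← Complex.exp_int_mul]
    rw [h1]
    exact (hS n hn).2

end Pool.Agent.K6.H35.EP
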