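import Pool.Agent.K6.H35.EP.Units2
import Pool.Agent.K6.H35.EP.Main

/-!
# Products of powers of polynomials in exponentials
-/

set_option autoImplicit false

namespace Pool.Agent.K6.H35.EP

open Module Finset Polynomial
open Pool.Agent.HP778 Pool.Agent.HP778.KZ Pool.Agent.K6.H30.PS
open Pool.Agent.H301R2.SSE (QB mem_QB Lt)
open scoped Pointwise

variable {r ρ : ℕ}

theorem isAlgClosed_QB : IsAlgClosed QB :=
  (algebraicClosure.isAlgClosure ℚ ℂ).isAlgClosed

theorem algInd_of {t : Fin r → ℂ} (ht : AlgebraicIndependent ℚ t ∨ ∃ α : Fin r → ℂ,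
    (∀ i, IsAlgebraic ℚ (α i)) ∧ LinearIndependent ℚ α ∧ ∀ i, t i = Complex.exp (α i)) :
    AlgebraicIndependent QB t := by
  rcases ht with ht | ⟨α, hα, hind, h⟩
  · exact ht.algebraicClosure
  · have h1 : t = fun i => Complex.exp (α i) := funext h
    rw [h1]
    refine algInd_exp α hα (hind.restrict_scalars ?_)
    intro a b hab
    simpa using hab

/-- distinct linear polynomials are multiplicatively independent -/
theorem linear_indep {k : Type} [Field k] (a : Fin ρ → k) (ha : Function.Injective a)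
    (n n' : Fin ρ → ℕ) (c : k) (hc : c ≠ 0)
    (h : ∏ j, (X - C (a j)) ^ n j = C c * ∏ j, (X - C (a j)) ^ n' j) : n = n' := by
  classical
  have h0 : ∀ j, (X - C (a j) : k[X]) ≠ 0 := fun j => X_sub_C_ne_zero _
  have h1 : ∀ (m : Fin ρ → ℕ) (l : Fin ρ),
      (∏ j, (X - C (a j)) ^ m j).rootMultiplicity (a l) = m l := by
    intro m l
    rw [rootMultiplicity_prod_pow _ h0, Finset.sum_eq_single l]
    · rw [rootMultiplicity_X_sub_C_self, mul_one]
    · intro j _ hj
      rw [rootMultiplicity_X_sub_C, if_neg (fun h => hj (ha h.symm)), mul_zero]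
    · intro h
      exact absurd (Finset.mem_univ _) h
  funext l
  have h2 : (∏ j, (X - C (a j)) ^ n j).rootMultiplicity (a l) =
      (C c * ∏ j, (X - C (a j)) ^ n' j).rootMultiplicity (a l) := by rw [h]
  rw [h1, ← count_roots, roots_C_mul _ hc, count_roots, h1] at h2
  exact h2

theorem linear_real {t : Fin r → ℂ} (ht : AlgebraicIndependent QB t)
    (F : Submodule QB ℂ) [FiniteDimensional QB F] (a : Fin r → Fin ρ → ℂ)
    (halg : ∀ i j, IsAlgebraic ℚ (a i j)) (ha : ∀ i, Function.Injective (a i)) :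
    ∃ C : ℝ, ∀ y : ℂ, y ≠ 0 → ∀ (N : ℕ) (S : Finset (Fin r → Fin ρ → ℕ)), 1 ≤ N →
      (∀ n ∈ S, (∀ i j, n i j < N) ∧ y * ∏ i, ∏ j, (t i - a i j) ^ n i j ∈ F * periods1) →
        (S.card : ℝ) ≤ C * (N : ℝ) ^ ((r * ρ : ℝ) / 2) := by
  classical
  have : IsAlgClosed QB := isAlgClosed_QB
  let a' : Fin r → Fin ρ → QB := fun i j => ⟨a i j, mem_QB.mpr (halg i j)⟩
  obtain ⟨C₀, hC₀⟩ := units_real hyper_periods1 ht F (fun i j => X - C (a' i j))
    (fun i n n' c hc h => linear_indep (a' i) (fun j j' hjj' => ha i (congrArg Subtype.val hjj'))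
      n n' c hc h)
  refine ⟨C₀, fun y hy N S hN hS => hC₀ y hy N S hN fun n hn => ⟨(hS n hn).1, ?_⟩⟩
  have h1 : ∏ i, ∏ j, Polynomial.aeval (t i) (X - C (a' i j)) ^ n i j =
      ∏ i, ∏ j, (t i - a i j) ^ n i j := by
    refine Finset.prod_congr rfl fun i _ => Finset.prod_congr rfl fun j _ => ?_
    rw [map_sub, aeval_X, aeval_C]
    rfl
  rw [h1]
  exact (hS n hn).2

end Pool.Agent.K6.H35.EP
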