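import Pool.Agent.K6.H35.EP.Box
import Pool.Agent.K6.H30.PS.Main

/-!
# Powers of spaces and one-dimensional periods
-/

set_option autoImplicit false

namespace Pool.Agent.K6.H35.EP

open Module Finset
open Pool.Agent.HP778 Pool.Agent.HP778.KZ Pool.Agent.K6.H30.PS
open scoped Pointwise

variable {k Ω : Type} [Field k] [Field Ω] [Algebra k Ω]

/-- the transcendence degree of the algebra generated by `U` -/
noncomputable def trd (U : Submodule k Ω) : ℕ :=
  (Algebra.trdeg k (Algebra.adjoin k (U : Set Ω))).toNat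

theorem mul_EE_le {s : ℕ} (t : Fin s → Ω) {q : ℕ} (a : Fin q → Ω) (M : Submodule k Ω)
    [FiniteDimensional k M] (K : ℕ) :
    M * EE k t a K ≤ EE k t (fun x : Fin (finrank k M) × Fin q =>
      ((Module.finBasis k M x.1 : M) : Ω) * a x.2) K := by
  rw [Submodule.mul_le]
  intro x hx y hy
  have h1 := congrArg (fun z : M => (z : Ω)) ((Module.finBasis k M).sum_repr ⟨x, hx⟩)
  simp only [Submodule.coe_sum, Submodule.coe_smul] at h1
  rw [← h1, Finset.sum_mul]
  refine Submodule.sum_mem _ fun l _ => ?_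
  rw [smul_mul_assoc]
  apply Submodule.smul_mem
  have h2 : EE k t a K ≤ (EE k t (fun x : Fin (finrank k M) × Fin q =>
      ((Module.finBasis k M x.1 : M) : Ω) * a x.2) K).comap
        (LinearMap.mulLeft k ((Module.finBasis k M l : M) : Ω)) := by
    conv_lhs => unfold EE
    rw [Submodule.span_le]
    rintro _ ⟨z, rfl⟩
    refine Submodule.subset_span ⟨(z.1, (l, z.2)), ?_⟩
    simp only [LinearMap.mulLeft_apply]
    ring
  exact h2 hy

theorem powers_bound {V : Submodule k Ω} (hV : Hyper V) (F U : Submodule k Ω)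
    [FiniteDimensional k F] [FiniteDimensional k U] (m : ℕ) :
    ∃ C : ℕ, ∀ M : Submodule k Ω, FiniteDimensional k M → finrank k M ≤ m → ∀ N : ℕ,
      finrank k ((M * U ^ N) ⊓ (F * V) : Submodule k Ω) ≤ C * (Nat.sqrt N + 1) ^ (trd U) := by
  classical
  obtain ⟨s, t, q, a, h, ht, hs, hU⟩ := exists_frame U
  let f := Module.finBasis k F
  have hf : LinearIndependent k (fun j => ((f j : F) : Ω)) :=
    f.linearIndependent.map' F.subtype F.ker_subtype
  obtain ⟨L, hL, hind⟩ := exists_dilation_box ht _ hf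
  refine ⟨(h + L) ^ s * (m * q) + finrank k F * finrank k F, fun M hM hMm N => ?_⟩
  let c : Fin (finrank k M) × Fin q → Ω := fun x => ((Module.finBasis k M x.1 : M) : Ω) * a x.2
  have h1 : (M * U ^ N) ⊓ (F * V) ≤ EE k t c (h * (N + 1)) ⊓ comb (fun j => ((f j : F) : Ω)) V :=
    inf_le_inf ((mul_le_mul_right (hU N) M).trans (mul_EE_le t a M _)) (comb_le f)
  have : FiniteDimensional k (EE k t c (h * (N + 1)) ⊓ comb (fun j => ((f j : F) : Ω)) V :
    Submodule k Ω) := Submodule.finiteDimensional_inf_left _ _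
  refine (Submodule.finrank_mono h1).trans ?_
  refine (box_growth_sqrt hV _ hind c h N).trans ?_
  apply Nat.mul_le_mul
  · apply Nat.add_le_add_right
    apply Nat.mul_le_mul_left
    rw [Fintype.card_prod, Fintype.card_fin, Fintype.card_fin]
    exact Nat.mul_le_mul_right _ hMm
  · exact Nat.pow_le_pow_right (by omega) hs

theorem sqrt_pow_le {r N : ℕ} (hN : 1 ≤ N) :
    (((Nat.sqrt N + 1) ^ r : ℕ) : ℝ) ≤ 2 ^ r * (N : ℝ) ^ ((r : ℝ) / 2) := by
  have hNR : (1 : ℝ) ≤ N := by exact_mod_cast hN
  have h1 : ((Nat.sqrt N : ℕ) : ℝ) ≤ Real.sqrt N := Real.nat_sqrt_le_real_sqrt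
  have h2 : (1 : ℝ) ≤ Real.sqrt N := by
    rw [Real.one_le_sqrt]
    exact hNR
  have h3 : (N : ℝ) ^ ((r : ℝ) / 2) = Real.sqrt N ^ r := by
    rw [Real.sqrt_eq_rpow, ← Real.rpow_natCast, ← Real.rpow_mul (by linarith)]
    congr 1
    ring
  rw [h3, ← mul_pow]
  push_cast
  exact pow_le_pow_left₀ (by positivity) (by linarith) r

theorem powers_real {V : Submodule k Ω} (hV : Hyper V) (F U : Submodule k Ω)
    [FiniteDimensional k F] [FiniteDimensional k U] (m : ℕ) :
    ∃ C : ℝ, ∀ M : Submodule k Ω, FiniteDimensional k M → finrank k M ≤ m → ∀ N : ℕ, 1 ≤ N →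
      (finrank k ((M * U ^ N) ⊓ (F * V) : Submodule k Ω) : ℝ) ≤
        C * (N : ℝ) ^ ((trd U : ℝ) / 2) := by
  obtain ⟨C, hC⟩ := powers_bound hV F U m
  refine ⟨C * 2 ^ trd U, fun M hM hMm N hN => ?_⟩
  have h1 := hC M hM hMm N
  have h2 : (finrank k ((M * U ^ N) ⊓ (F * V) : Submodule k Ω) : ℝ) ≤
      C * (((Nat.sqrt N + 1) ^ trd U : ℕ) : ℝ) := by exact_mod_cast h1
  refine h2.trans ?_
  rw [mul_assoc]
  exact mul_le_mul_of_nonneg_left (sqrt_pow_le hN) (Nat.cast_nonneg _)

/-- the lower bound for the powers -/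
theorem powers_lower (U : Submodule k Ω) [FiniteDimensional k U] (h1U : (1 : Ω) ∈ U) (N : ℕ) :
    (N / trd U + 1) ^ trd U ≤ finrank k (U ^ N : Submodule k Ω) := by
  classical
  let A : Subalgebra k Ω := Algebra.adjoin k (U : Set Ω)
  let s : Set A := {x | (x : Ω) ∈ U}
  have hs : Algebra.adjoin k s = ⊤ := by
    rw [eq_top_iff]
    intro x _
    have h1 : ((Algebra.adjoin k s).map A.val) = A := by
      rw [AlgHom.map_adjoin]
      congr 1
      ext z
      constructor
      · rintro ⟨y, hy, rfl⟩
        exact hy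
      · intro hz
        exact ⟨⟨z, Algebra.subset_adjoin hz⟩, hz, rfl⟩
    have h2 : (x : Ω) ∈ (Algebra.adjoin k s).map A.val := by
      rw [h1]
      exact x.2
    obtain ⟨y, hy, hyx⟩ := h2
    have : y = x := Subtype.ext hyx
    rwa [← this]
  have halg : Algebra.IsAlgebraic (Algebra.adjoin k s) A := by
    rw [hs]
    constructor
    intro x
    exact isAlgebraic_algebraMap (⟨x, Algebra.mem_top⟩ : (⊤ : Subalgebra k A))
  obtain ⟨T, hT, hbas⟩ := exists_isTranscendenceBasis_subset (R := k) s
  -- `A` is finitely generated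
  obtain ⟨S, hS⟩ := (Submodule.fg_iff_finiteDimensional U).mpr inferInstance
  have hA : A = Algebra.adjoin k (S : Set Ω) := by
    apply le_antisymm
    · apply Algebra.adjoin_le
      intro u hu
      rw [SetLike.mem_coe, ← hS] at hu
      exact Algebra.span_le_adjoin k _ hu
    · apply Algebra.adjoin_mono
      rw [← hS]
      exact Submodule.subset_span
  have hfg : Algebra.FiniteType k A := by
    rw [hA]
    exact Subalgebra.fg_iff_finiteType _ |>.mp ⟨S, rfl⟩
  have hcard : Cardinal.mk T = Algebra.trdeg k A := hbas.cardinalMk_eq_trdeg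
  have hlt : Cardinal.mk T < Cardinal.aleph0 := by
    rw [hcard]
    exact trdeg_lt_aleph0_of_finiteType
  have hTfin : Finite T := Cardinal.lt_aleph0_iff_finite.mp hlt
  have hT' : Nat.card T = trd U := by
    unfold trd Nat.card
    rw [hcard]
  let e : Fin (trd U) ≃ T := (Finite.equivFinOfCardEq hT').symm
  let t : Fin (trd U) → Ω := fun i => ((e i : A) : Ω)
  have htU : ∀ i, t i ∈ U := fun i => hT (e i).2
  have ht : AlgebraicIndependent k t := by
    have h1 : AlgebraicIndependent k (fun i : Fin (trd U) => ((e i : T) : A)) :=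
      hbas.1.comp e e.injective
    exact h1.map' (f := A.val) Subtype.val_injective
  -- the monomials
  set b := N / trd U + 1 with hb
  have hind : LinearIndependent k (fun β : Fin (trd U) → Fin b => ∏ i, t i ^ (β i : ℕ)) := by
    have h1 : LinearIndependent k (fun β : Fin (trd U) → Fin b =>
        MvPolynomial.monomial (ex 1 β) (1 : k)) := by
      have h2 := (MvPolynomial.basisMonomials (Fin (trd U)) k).linearIndependent
      rw [MvPolynomial.coe_basisMonomials] at h2
      refine h2.comp (fun β : Fin (trd U) → Fin b => ex 1 β) ?_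
      intro β β' hββ'
      funext i
      have h3 := congrArg (fun z : Fin (trd U) →₀ ℕ => z i) hββ'
      simp only [ex_apply, one_mul] at h3
      exact Fin.ext h3
    have h2 := h1.map' (MvPolynomial.aeval t : MvPolynomial (Fin (trd U)) k →ₐ[k] Ω).toLinearMap
      (by
        rw [LinearMap.ker_eq_bot]
        exact ht)
    have h3 : ((MvPolynomial.aeval t : MvPolynomial (Fin (trd U)) k →ₐ[k] Ω).toLinearMap ∘
        fun β : Fin (trd U) → Fin b => MvPolynomial.monomial (ex 1 β) (1 : k)) =
        fun β : Fin (trd U) → Fin b => ∏ i, t i ^ (β i : ℕ) := by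
      funext β
      rw [Function.comp_apply, AlgHom.toLinearMap_apply, aeval_ex]
      simp only [one_mul]
    rwa [h3] at h2
  have hmem : ∀ β : Fin (trd U) → Fin b, ∏ i, t i ^ (β i : ℕ) ∈ U ^ N := by
    intro β
    have h1 : ∀ S : Finset (Fin (trd U)), ∏ i ∈ S, t i ^ (β i : ℕ) ∈ U ^ (∑ i ∈ S, (β i : ℕ)) := by
      intro S
      induction S using Finset.induction_on with
      | empty =>
        rw [Finset.prod_empty, Finset.sum_empty, pow_zero]
        exact Submodule.one_le.mp le_rfl
      | insert i S hi ih =>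
        rw [Finset.prod_insert hi, Finset.sum_insert hi, pow_add]
        exact Submodule.mul_mem_mul (Submodule.pow_mem_pow U (htU i) _) ih
    have h2 : ∑ i, (β i : ℕ) ≤ N := by
      calc ∑ i, (β i : ℕ) ≤ ∑ _i : Fin (trd U), N / trd U :=
            Finset.sum_le_sum fun i _ => by
              have := (β i).2
              omega
        _ = trd U * (N / trd U) := by
            rw [Finset.sum_const, Finset.card_univ, Fintype.card_fin, smul_eq_mul]
        _ ≤ N := Nat.mul_div_le _ _
    exact pow_le_pow_right' (Submodule.one_le.mpr h1U) h2 (h1 Finset.univ)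
  have hfd : FiniteDimensional k (U ^ N : Submodule k Ω) := by
    rw [← Submodule.fg_iff_finiteDimensional]
    exact ((Submodule.fg_iff_finiteDimensional U).mpr inferInstance).pow N
  have h1 := finrank_span_eq_card hind
  rw [Fintype.card_fun, Fintype.card_fin, Fintype.card_fin] at h1
  rw [← h1]
  apply Submodule.finrank_mono
  rw [Submodule.span_le]
  rintro _ ⟨β, rfl⟩
  exact hmem β

end Pool.Agent.K6.H35.EP
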