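import Pool.Agent.K6.H35.EP.Str
import Pool.Agent.K6.H35.EP.Deg

/-!
# The values of an exponential polynomial with arbitrary coefficients are nearly independent
-/

set_option autoImplicit false

namespace Pool.Agent.K6.H35.EP

open Module Finset Polynomial

variable {k Ω : Type} [Field k] [Field Ω] [Algebra k Ω] {r : ℕ}

/-- weights which do not vanish at finitely many vectors -/
theorem exists_weights (S : Finset (Fin r → ℤ)) (hS : ∀ v ∈ S, v ≠ 0) :
    ∃ w : Fin r → ℕ, ∀ v ∈ S, ∑ i, (w i : ℤ) * v i ≠ 0 := by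
  classical
  let g : (Fin r → ℤ) → ℤ[X] := fun v => ∑ i : Fin r, C (v i) * X ^ (i : ℕ)
  have hg : ∀ v ∈ S, g v ≠ 0 := by
    intro v hv h0
    apply hS v hv
    funext i
    have h1 := congrArg (fun P : ℤ[X] => P.coeff i) h0
    simp only [g, finsetSum_coeff, coeff_C_mul, coeff_X_pow, coeff_zero] at h1
    rw [Finset.sum_eq_single i] at h1
    · rwa [if_pos rfl, mul_one] at h1
    · intro j _ hj
      rw [if_neg (fun h => hj (Fin.ext h.symm)), mul_zero]
    · intro h
      exact absurd (Finset.mem_univ _) h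
  have hG : ∏ v ∈ S, g v ≠ 0 := Finset.prod_ne_zero_iff.mpr hg
  obtain ⟨M, hM⟩ : ∃ M : ℕ, (∏ v ∈ S, g v).eval (M : ℤ) ≠ 0 := by
    by_contra hcon
    push Not at hcon
    apply hG
    apply Polynomial.eq_zero_of_infinite_isRoot
    refine Set.Infinite.mono (s := Set.range (fun n : ℕ => (n : ℤ))) ?_
      (Set.infinite_range_of_injective Nat.cast_injective)
    rintro _ ⟨n, rfl⟩
    exact hcon n
  refine ⟨fun i => M ^ (i : ℕ), fun v hv h0 => hM ?_⟩
  rw [eval_prod]
  apply Finset.prod_eq_zero hv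
  rw [← h0]
  simp only [g, eval_finsetSum, eval_mul, eval_C, eval_pow, eval_X]
  refine Finset.sum_congr rfl fun i _ => ?_
  push_cast
  ring

/-- the substitution `t i = X ^ w i` -/
noncomputable def sub (w : Fin r → ℕ) : MvPolynomial (Fin r) k →ₐ[k] k[X] :=
  MvPolynomial.aeval fun i => X ^ (w i)

theorem sub_monomial (w : Fin r → ℕ) (e : Fin r →₀ ℕ) (c : k) :
    sub w (MvPolynomial.monomial e c) = C c * X ^ (∑ i, w i * e i) := by
  unfold sub
  rw [MvPolynomial.aeval_monomial, Finsupp.prod_fintype]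
  · rw [← Finset.prod_pow_eq_pow_sum]
    congr 1
    refine Finset.prod_congr rfl fun i _ => ?_
    rw [pow_mul]
  · intro i
    rw [pow_zero]

theorem sub_ne_zero' (w : Fin r → ℕ) (p : MvPolynomial (Fin r) k) (hp : p ≠ 0)
    (hw : ∀ s ∈ p.support, ∀ s' ∈ p.support, s ≠ s' → ∑ i, w i * s i ≠ ∑ i, w i * s' i) :
    sub w p ≠ 0 := by
  classical
  obtain ⟨s₀, hs₀⟩ := MvPolynomial.support_nonempty.mpr hp
  intro h0
  have h1 := congrArg (fun P : k[X] => P.coeff (∑ i, w i * s₀ i)) h0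
  rw [p.as_sum, map_sum] at h1
  simp only [sub_monomial, finsetSum_coeff, coeff_C_mul, coeff_X_pow, coeff_zero] at h1
  rw [Finset.sum_eq_single s₀] at h1
  · rw [if_pos rfl, mul_one] at h1
    exact MvPolynomial.mem_support_iff.mp hs₀ h1
  · intro s hs hne
    rw [if_neg (hw s₀ hs₀ s hs (Ne.symm hne)), mul_zero]
  · intro h
    exact absurd hs₀ h

/-- the monomials with integral exponents -/
noncomputable def chi (t : Fin r → Ω) (γ : Fin r → ℤ) : Ω := ∏ i, t i ^ (γ i)

/-- the shifted exponents -/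
noncomputable def sh (γ : Fin r → ℤ) (B n : ℕ) : Fin r →₀ ℕ :=
  Finsupp.equivFunOnFinite.symm fun i => ((n : ℤ) * γ i + B).toNat

theorem sh_apply (γ : Fin r → ℤ) (B n : ℕ) (i : Fin r) : sh γ B n i = ((n : ℤ) * γ i + B).toNat :=
  rfl

theorem prod_sh {t : Fin r → Ω} (ht : ∀ i, t i ≠ 0) (γ : Fin r → ℤ) (B n : ℕ)
    (h : ∀ i, 0 ≤ (n : ℤ) * γ i + B) :
    ∏ i, t i ^ (((n : ℤ) * γ i + B).toNat) = (∏ i, t i) ^ B * chi t γ ^ n := by
  unfold chi
  rw [← Finset.prod_pow, ← Finset.prod_pow, ← Finset.prod_mul_distrib]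
  refine Finset.prod_congr rfl fun i _ => ?_
  rw [← zpow_natCast, Int.toNat_of_nonneg (h i), add_comm, zpow_add₀ (ht i),
    zpow_natCast, mul_comm (n : ℤ), zpow_mul, zpow_natCast]

theorem aeval_sh {t : Fin r → Ω} (ht : ∀ i, t i ≠ 0) (γ : Fin r → ℤ) (B n : ℕ)
    (h : ∀ i, 0 ≤ (n : ℤ) * γ i + B) :
    MvPolynomial.aeval t (MvPolynomial.monomial (sh γ B n) (1 : k)) =
      (∏ i, t i) ^ B * chi t γ ^ n := by
  rw [MvPolynomial.aeval_monomial, map_one, one_mul, Finsupp.prod_fintype, ← prod_sh ht γ B n h]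
  · rfl
  · intro i
    rw [pow_zero]

theorem sub_sh (w : Fin r → ℕ) (γ : Fin r → ℤ) (B n : ℕ) (h : ∀ i, 0 ≤ (n : ℤ) * γ i + B) :
    sub w (MvPolynomial.monomial (sh γ B n) (1 : k)) =
      X ^ (((n : ℤ) * (∑ i, (w i : ℤ) * γ i) + ((∑ i, w i) * B : ℕ)).toNat) := by
  rw [sub_monomial, map_one, one_mul]
  congr 1
  have h1 : ((∑ i, w i * sh γ B n i : ℕ) : ℤ) =
      (n : ℤ) * (∑ i, (w i : ℤ) * γ i) + ((∑ i, w i) * B : ℕ) := by
    push_cast
    rw [Finset.mul_sum, Finset.sum_mul, ← Finset.sum_add_distrib]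
    refine Finset.sum_congr rfl fun i _ => ?_
    rw [sh_apply, Int.toNat_of_nonneg (h i)]
    ring
  rw [← h1, Int.toNat_natCast]

/-- the values of an exponential polynomial -/
noncomputable def val {ι : Type} [Fintype ι] (t : Fin r → Ω) (γ : ι → Fin r → ℤ) (d : ℕ)
    (c : ι → ℕ → Ω) (n : ℕ) : Ω :=
  ∑ j, (∑ i ∈ Finset.range (d + 1), c j i * (n : Ω) ^ i) * chi t (γ j) ^ n

/-- the space of the relations has a bounded dimension, up to a factor -/
theorem lower_bound [CharZero k] {t : Fin r → Ω} (ht : AlgebraicIndependent k t) {ι : Type}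
    [Fintype ι] (γ : ι → Fin r → ℤ) (hγ : Function.Injective γ) (d : ℕ) (c : ι → ℕ → Ω)
    (hc : ∃ j, γ j ≠ 0 ∧ ∃ i ≤ d, c j i ≠ 0) (S : Finset ℕ) :
    S.card ≤ 2 * finrank k (Submodule.span k (val t γ d c '' (S : Set ℕ))) +
      (2 * (d + 1) + (d * Fintype.card ι + Fintype.card ι ^ 2)) := by
  classical
  have ht0 : ∀ i, t i ≠ 0 := fun i => ht.ne_zero i
  obtain ⟨N, hN⟩ : ∃ N, ∀ n ∈ S, n < N := ⟨S.sup id + 1, fun n hn =>
    Nat.lt_succ_of_le (Finset.le_sup (f := id) hn)⟩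
  obtain ⟨m, y, p, hp, hy⟩ := exists_coords ht (fun x : ι × Fin (d + 1) => c x.1 x.2)
  obtain ⟨j₁, hj₁, i₁, hi₁, hc₁⟩ := hc
  let x₁ : ι × Fin (d + 1) := (j₁, ⟨i₁, by omega⟩)
  obtain ⟨l₀, hl₀⟩ : ∃ l, p x₁ l ≠ 0 := by
    by_contra hcon
    push Not at hcon
    apply hc₁
    have h1 := hp x₁
    change c j₁ i₁ = _ at h1
    rw [h1]
    refine Finset.sum_eq_zero fun l _ => ?_
    rw [hcon l, map_zero, zero_mul]
  -- the weights
  let D : Finset (Fin r → ℤ) := ({γ j₁} ∪ (Finset.univ.image fun x : ι × ι => γ x.1 - γ x.2)) ∪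
    (((p x₁ l₀).support ×ˢ (p x₁ l₀).support).image fun s => fun i => (s.1 i : ℤ) - s.2 i)
  obtain ⟨w, hw⟩ := exists_weights (D.filter fun v => v ≠ 0) (fun v hv => (Finset.mem_filter.mp hv).2)
  have hwD : ∀ v ∈ D, v ≠ 0 → ∑ i, (w i : ℤ) * v i ≠ 0 := fun v hv hv0 =>
    hw v (Finset.mem_filter.mpr ⟨hv, hv0⟩)
  let a : ι → ℤ := fun j => ∑ i, (w i : ℤ) * γ j i
  have ha : Function.Injective a := by
    intro j j' hjj'
    by_contra hne
    refine hwD (γ j - γ j') ?_ (fun h => hne (hγ (sub_eq_zero.mp h))) ?_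
    · exact Finset.mem_union_left _ (Finset.mem_union_right _
        (Finset.mem_image.mpr ⟨(j, j'), Finset.mem_univ _, rfl⟩))
    · have h1 : a j - a j' = 0 := sub_eq_zero.mpr hjj'
      rw [← h1]
      simp only [a, Pi.sub_apply, mul_sub, Finset.sum_sub_distrib]
  have ha₁ : a j₁ ≠ 0 := hwD (γ j₁) (Finset.mem_union_left _ (Finset.mem_union_left _
    (Finset.mem_singleton_self _))) hj₁
  let π : ι → ℕ → k[X] := fun j i => if h : i < d + 1 then sub w (p (j, ⟨i, h⟩) l₀) else 0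
  have hπ₁ : π j₁ i₁ ≠ 0 := by
    simp only [π]
    rw [dif_pos (by omega : i₁ < d + 1)]
    apply sub_ne_zero' w _ hl₀
    intro s hs s' hs' hne heq
    refine hwD (fun i => (s i : ℤ) - s' i) ?_ ?_ ?_
    · exact Finset.mem_union_right _ (Finset.mem_image.mpr
        ⟨(s, s'), Finset.mem_product.mpr ⟨hs, hs'⟩, rfl⟩)
    · intro h
      apply hne
      ext i
      have h1 := congrFun h i
      simp only [Pi.zero_apply] at h1
      omega
    · have h1 : ((∑ i, w i * s i : ℕ) : ℤ) = ((∑ i, w i * s' i : ℕ) : ℤ) := by rw [heq]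
      push_cast at h1
      simp only [mul_sub, Finset.sum_sub_distrib]
      exact sub_eq_zero.mpr h1
  -- the shift
  let G : ℕ := ∑ j, ∑ i, (γ j i).natAbs
  have hG : ∀ j i, (γ j i).natAbs ≤ G := by
    intro j i
    exact (Finset.single_le_sum (f := fun i => (γ j i).natAbs) (fun _ _ => Nat.zero_le _)
      (Finset.mem_univ i)).trans (Finset.single_le_sum (f := fun j => ∑ i, (γ j i).natAbs)
        (fun _ _ => Nat.zero_le _) (Finset.mem_univ j))
  have hpos : ∀ j i, ∀ n < N, 0 ≤ (n : ℤ) * γ j i + (N * G : ℕ) := by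
    intro j i n hn
    have h1 := hG j i
    have h2 : |(n : ℤ) * γ j i| ≤ (N * G : ℕ) := by
      rw [abs_mul, Nat.abs_cast]
      push_cast
      have h3 : (n : ℤ) ≤ N := by exact_mod_cast hn.le
      have h4 : |γ j i| ≤ G := by
        rw [Int.abs_eq_natAbs]
        exact_mod_cast h1
      exact mul_le_mul h3 h4 (abs_nonneg _) (Int.natCast_nonneg _)
    have := neg_abs_le ((n : ℤ) * γ j i)
    linarith
  let P : ℕ → Fin m → MvPolynomial (Fin r) k := fun n l =>
    ∑ j, MvPolynomial.monomial (sh (γ j) (N * G) n) (1 : k) *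
      ∑ i : Fin (d + 1), MvPolynomial.C ((n : k) ^ (i : ℕ)) * p (j, i) l
  let Φ : (Fin m → MvPolynomial (Fin r) k) →ₗ[k] Ω :=
    ∑ l, (LinearMap.mulRight k (y l)).comp
      ((MvPolynomial.aeval t : MvPolynomial (Fin r) k →ₐ[k] Ω).toLinearMap.comp
        (LinearMap.proj l))
  have hΦa : ∀ q, Φ q = ∑ l, MvPolynomial.aeval t (q l) * y l := by
    intro q
    simp only [Φ, LinearMap.sum_apply, LinearMap.comp_apply, LinearMap.proj_apply,
      LinearMap.mulRight_apply, AlgHom.toLinearMap_apply]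
  have hΦ : Function.Injective Φ := by
    rw [← LinearMap.ker_eq_bot, LinearMap.ker_eq_bot']
    intro q hq
    rw [hΦa] at hq
    exact hy q hq
  let Ψ : (Fin m → MvPolynomial (Fin r) k) →ₗ[k] k[X] :=
    (sub w : MvPolynomial (Fin r) k →ₐ[k] k[X]).toLinearMap.comp (LinearMap.proj l₀)
  let τ : Ω := (∏ i, t i) ^ (N * G)
  have hτ : τ ≠ 0 := pow_ne_zero _ (Finset.prod_ne_zero_iff.mpr fun i _ => ht0 i)
  have h1 : ∀ n ∈ S, Φ (P n) = τ * val t γ d c n := by
    intro n hn
    rw [hΦa]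
    unfold val
    rw [Finset.mul_sum]
    simp only [P, map_sum, map_mul, Finset.sum_mul]
    rw [Finset.sum_comm]
    refine Finset.sum_congr rfl fun j _ => ?_
    rw [aeval_sh ht0 (γ j) (N * G) n (fun i => hpos j i n (hN n hn))]
    simp only [Finset.mul_sum, Finset.sum_mul, MvPolynomial.aeval_C]
    rw [Finset.sum_comm, Finset.sum_range]
    refine Finset.sum_congr rfl fun i _ => ?_
    have h2 := hp (j, i)
    simp only at h2
    rw [h2]
    simp only [Finset.sum_mul, Finset.mul_sum]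
    refine Finset.sum_congr rfl fun l _ => ?_
    rw [map_pow, map_natCast]
    change (∏ i, t i) ^ (N * G) * _ * _ * _ = (∏ i, t i) ^ (N * G) * _
    ring
  have h2 : ∀ n ∈ S, Ψ (P n) = Tn a d π ((∑ i, w i) * (N * G)) n := by
    intro n hn
    change sub w (P n l₀) = _
    unfold Tn
    simp only [P]
    rw [map_sum]
    refine Finset.sum_congr rfl fun j _ => ?_
    rw [map_mul, sub_sh w (γ j) (N * G) n (fun i => hpos j i n (hN n hn))]
    congr 1
    unfold Qn
    rw [map_sum, Finset.sum_range]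
    refine Finset.sum_congr rfl fun i _ => ?_
    rw [map_mul]
    simp only [π]
    rw [dif_pos i.2]
    congr 1
    unfold sub
    rw [MvPolynomial.aeval_C]
    rfl
  have h3 : (Submodule.span k (P '' (S : Set ℕ))).map Φ =
      (Submodule.span k (val t γ d c '' (S : Set ℕ))).map (LinearMap.mulLeft k τ) := by
    rw [Submodule.map_span, Submodule.map_span, ← Set.image_comp, ← Set.image_comp]
    congr 1
    apply Set.image_congr
    intro n hn
    exact h1 n hn
  have h4 : (Submodule.span k (P '' (S : Set ℕ))).map Ψ =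
      Submodule.span k (Tn a d π ((∑ i, w i) * (N * G)) '' (S : Set ℕ)) := by
    rw [Submodule.map_span, ← Set.image_comp]
    congr 1
    apply Set.image_congr
    intro n hn
    exact h2 n hn
  have hfd : FiniteDimensional k (Submodule.span k (P '' (S : Set ℕ))) :=
    FiniteDimensional.span_of_finite _ (S.finite_toSet.image _)
  have hτinj : Function.Injective (LinearMap.mulLeft k τ) := fun x y hxy =>
    mul_left_cancel₀ hτ hxy
  have h5 : finrank k (Submodule.span k (val t γ d c '' (S : Set ℕ))) =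
      finrank k (Submodule.span k (P '' (S : Set ℕ))) := by
    rw [(Submodule.equivMapOfInjective _ hτinj _).finrank_eq, ← h3,
      ← (Submodule.equivMapOfInjective _ hΦ _).finrank_eq]
  have h6 : finrank k (Submodule.span k (Tn a d π ((∑ i, w i) * (N * G)) '' (S : Set ℕ))) ≤
      finrank k (Submodule.span k (P '' (S : Set ℕ))) := by
    rw [← h4]
    exact Submodule.finrank_map_le _ _
  have h7 := degree_lemma a ha d π ⟨j₁, ha₁, i₁, hi₁, hπ₁⟩ N ((∑ i, w i) * (N * G)) ?_ S hN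
  · rw [h5]
    omega
  · intro j n hn
    have h8 : (n : ℤ) * a j + ((∑ i, w i) * (N * G) : ℕ) =
        ∑ i, (w i : ℤ) * ((n : ℤ) * γ j i + (N * G : ℕ)) := by
      simp only [a, mul_add, Finset.sum_add_distrib, Finset.mul_sum]
      congr 1
      · refine Finset.sum_congr rfl fun i _ => ?_
        ring
      · push_cast
        rw [← Finset.sum_mul]
    rw [h8]
    exact Finset.sum_nonneg fun i _ => mul_nonneg (Int.natCast_nonneg _) (hpos j i n hn)

end Pool.Agent.K6.H35.EP
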