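import Mathlib

/-!
# Coordinates over a ring of polynomials, and dilations in several variables
-/

set_option autoImplicit false

namespace Pool.Agent.K6.H35.EP

open Module Finset

variable {k Ω : Type} [Field k] [Field Ω] [Algebra k Ω] {r : ℕ}

/-- Finitely many elements have polynomial coordinates with respect to elements which are linearly
independent over the ring of the polynomials in the `t i`. -/
theorem exists_coords {t : Fin r → Ω} (ht : AlgebraicIndependent k t) {ι : Type} [Finite ι]
    (c : ι → Ω) :
    ∃ (m : ℕ) (y : Fin m → Ω) (p : ι → Fin m → MvPolynomial (Fin r) k),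
      (∀ i, c i = ∑ l, MvPolynomial.aeval t (p i l) * y l) ∧
      ∀ q : Fin m → MvPolynomial (Fin r) k,
        ∑ l, MvPolynomial.aeval t (q l) * y l = 0 → q = 0 := by
  classical
  let _ : Algebra (MvPolynomial (Fin r) k) Ω :=
    (MvPolynomial.aeval t : MvPolynomial (Fin r) k →ₐ[k] Ω).toRingHom.toAlgebra
  have hmap : ∀ P : MvPolynomial (Fin r) k,
      algebraMap (MvPolynomial (Fin r) k) Ω P = MvPolynomial.aeval t P := fun _ => rfl
  have hinj : Function.Injective (algebraMap (MvPolynomial (Fin r) k) Ω) := ht
  have : FaithfulSMul (MvPolynomial (Fin r) k) Ω :=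
    (faithfulSMul_iff_algebraMap_injective _ _).mpr hinj
  let _ : Algebra (FractionRing (MvPolynomial (Fin r) k)) Ω := FractionRing.liftAlgebra _ _
  have : IsScalarTower (MvPolynomial (Fin r) k) (FractionRing (MvPolynomial (Fin r) k)) Ω :=
    FractionRing.isScalarTower_liftAlgebra _ _
  let K := FractionRing (MvPolynomial (Fin r) k)
  let U : Submodule K Ω := Submodule.span K (Set.range c)
  have : FiniteDimensional K U := FiniteDimensional.span_of_finite _ (Set.finite_range c)
  let b := Module.finBasis K U
  let c' : ι → U := fun i => ⟨c i, Submodule.subset_span ⟨i, rfl⟩⟩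
  have := Fintype.ofFinite ι
  obtain ⟨s, hs⟩ := IsLocalization.exist_integer_multiples_of_finite
    (nonZeroDivisors (MvPolynomial (Fin r) k))
    (fun x : ι × Fin (finrank K U) => (b.repr (c' x.1) x.2 : K))
  choose p hp using hs
  have hs0 : MvPolynomial.aeval t (s : MvPolynomial (Fin r) k) ≠ 0 := by
    rw [← hmap, Ne, map_eq_zero_iff _ hinj]
    exact nonZeroDivisors.ne_zero s.2
  refine ⟨finrank K U, fun l => (MvPolynomial.aeval t (s : MvPolynomial (Fin r) k))⁻¹ * (b l : U),
    fun i l => p (i, l), fun i => ?_, fun q hq => ?_⟩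
  · have h1 := congrArg (fun z : U => (z : Ω)) (b.sum_repr (c' i))
    simp only [Submodule.coe_sum, Submodule.coe_smul] at h1
    rw [show c i = (c' i : Ω) from rfl, ← h1]
    refine Finset.sum_congr rfl fun l _ => ?_
    have h2 := hp (i, l)
    simp only at h2
    have h3 : MvPolynomial.aeval t (p (i, l)) =
        MvPolynomial.aeval t (s : MvPolynomial (Fin r) k) * algebraMap K Ω (b.repr (c' i) l) := by
      rw [← hmap, IsScalarTower.algebraMap_apply (MvPolynomial (Fin r) k) K Ω, h2,
        Algebra.smul_def, map_mul, ← IsScalarTower.algebraMap_apply, hmap]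
    rw [h3, Algebra.smul_def]
    field_simp
  · have h1 : ∑ l, (algebraMap (MvPolynomial (Fin r) k) K (q l)) • b l = 0 := by
      apply Subtype.ext
      rw [Submodule.coe_sum, Submodule.coe_zero]
      have h2 : MvPolynomial.aeval t (s : MvPolynomial (Fin r) k) *
          ∑ l, MvPolynomial.aeval t (q l) *
            ((MvPolynomial.aeval t (s : MvPolynomial (Fin r) k))⁻¹ * (b l : U)) = 0 := by
        rw [hq, mul_zero]
      rw [← h2, Finset.mul_sum]
      refine Finset.sum_congr rfl fun l _ => ?_
      rw [Submodule.coe_smul, Algebra.smul_def, ← IsScalarTower.algebraMap_apply, hmap]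
      field_simp
    have h3 := Fintype.linearIndependent_iff.mp b.linearIndependent _ h1
    funext l
    have h4 := h3 l
    rwa [map_eq_zero_iff _ (IsFractionRing.injective _ _)] at h4

theorem coeff_zero_of_le {L : ℕ} {P : MvPolynomial (Fin r) k} (hP : P.totalDegree < L)
    {d : Fin r →₀ ℕ} (i : Fin r) (h : L ≤ d i) : MvPolynomial.coeff d P = 0 := by
  apply MvPolynomial.coeff_eq_zero_of_totalDegree_lt
  refine lt_of_lt_of_le hP (h.trans ?_)
  have hi : i ∈ d.support := by
    rw [Finsupp.mem_support_iff]
    omega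
  exact Finset.single_le_sum (f := fun i => d i) (fun _ _ => Nat.zero_le _) hi

/-- the exponent `L β` -/
noncomputable def ex (L : ℕ) {n : ℕ} (β : Fin r → Fin n) : Fin r →₀ ℕ :=
  Finsupp.equivFunOnFinite.symm fun i => L * (β i : ℕ)

theorem ex_apply (L : ℕ) {n : ℕ} (β : Fin r → Fin n) (i : Fin r) : ex L β i = L * (β i : ℕ) := rfl

theorem coeff_block {L n : ℕ} (P : (Fin r → Fin n) → MvPolynomial (Fin r) k)
    (hP : ∀ β, (P β).totalDegree < L)
    (h : ∑ β, MvPolynomial.monomial (ex L β) (1 : k) * P β = 0) (β : Fin r → Fin n) : P β = 0 := by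
  classical
  ext e
  rw [MvPolynomial.coeff_zero]
  by_cases he : ∃ i, L ≤ e i
  · obtain ⟨i, hi⟩ := he
    exact coeff_zero_of_le (hP β) i hi
  · push Not at he
    have h1 := congrArg (fun Q : MvPolynomial (Fin r) k => MvPolynomial.coeff (ex L β + e) Q) h
    simp only [MvPolynomial.coeff_sum, MvPolynomial.coeff_zero] at h1
    rw [Finset.sum_eq_single β] at h1
    · rw [MvPolynomial.coeff_monomial_mul, one_mul] at h1
      exact h1
    · intro β' _ hne
      rw [MvPolynomial.coeff_monomial_mul']
      split_ifs with hle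
      · rw [one_mul]
        obtain ⟨i, hi⟩ : ∃ i, β' i ≠ β i := by
          by_contra hcon
          push Not at hcon
          exact hne (funext hcon)
        apply coeff_zero_of_le (hP β') i
        have h2 := hle i
        rw [Finsupp.add_apply, ex_apply, ex_apply] at h2
        rw [Finsupp.tsub_apply, Finsupp.add_apply, ex_apply, ex_apply]
        have h3 := he i
        have h4 : (β' i : ℕ) ≠ β i := fun h => hi (Fin.ext h)
        rcases lt_or_gt_of_ne h4 with h5 | h5
        · have h6 : L * ((β' i : ℕ) + 1) ≤ L * (β i : ℕ) := Nat.mul_le_mul_left _ h5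
          rw [Nat.mul_add, Nat.mul_one] at h6
          omega
        · exfalso
          have h6 : L * ((β i : ℕ) + 1) ≤ L * (β' i : ℕ) := Nat.mul_le_mul_left _ h5
          rw [Nat.mul_add, Nat.mul_one] at h6
          omega
      · rfl
    · intro hj
      exact absurd (Finset.mem_univ _) hj

theorem aeval_ex (t : Fin r → Ω) (L : ℕ) {n : ℕ} (β : Fin r → Fin n) :
    MvPolynomial.aeval t (MvPolynomial.monomial (ex L β) (1 : k)) =
      ∏ i, t i ^ (L * (β i : ℕ)) := by
  rw [MvPolynomial.aeval_monomial, map_one, one_mul, Finsupp.prod_fintype]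
  · rfl
  · intro i
    rw [pow_zero]

/-- the products `t ^ (L β) * f j` are independent for some `L` -/
theorem exists_dilation_box {t : Fin r → Ω} (ht : AlgebraicIndependent k t) {m : ℕ}
    (f : Fin m → Ω) (hf : LinearIndependent k f) : ∃ L : ℕ, 1 ≤ L ∧ ∀ n : ℕ,
      LinearIndependent k (fun p : (Fin r → Fin n) × Fin m =>
        (∏ i, t i ^ (L * (p.1 i : ℕ))) * f p.2) := by
  classical
  obtain ⟨m', y, p, hp, hy⟩ := exists_coords ht f
  let L := 1 + ∑ j : Fin m, ∑ l, (p j l).totalDegree
  refine ⟨L, Nat.le_add_right _ _, fun n => ?_⟩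
  have hL : ∀ j l, (p j l).totalDegree < L := by
    intro j l
    have h1 : (p j l).totalDegree ≤ ∑ l, (p j l).totalDegree :=
      Finset.single_le_sum (f := fun l => (p j l).totalDegree) (fun _ _ => Nat.zero_le _)
        (Finset.mem_univ l)
    have h2 : ∑ l, (p j l).totalDegree ≤ ∑ j : Fin m, ∑ l, (p j l).totalDegree :=
      Finset.single_le_sum (f := fun j => ∑ l, (p j l).totalDegree)
        (fun _ _ => Nat.zero_le _) (Finset.mem_univ j)
    omega
  rw [Fintype.linearIndependent_iff]
  intro c hc
  -- the relation in the coordinates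
  have h1 : (fun l => ∑ β : Fin r → Fin n, MvPolynomial.monomial (ex L β) (1 : k) *
      ∑ j, MvPolynomial.C (c (β, j)) * p j l) = 0 := by
    apply hy
    rw [← hc, Fintype.sum_prod_type]
    simp only [map_sum, map_mul, aeval_ex, MvPolynomial.aeval_C, Finset.sum_mul, Finset.mul_sum]
    rw [Finset.sum_comm]
    refine Finset.sum_congr rfl fun β _ => ?_
    rw [Finset.sum_comm]
    refine Finset.sum_congr rfl fun j _ => ?_
    rw [hp j, Algebra.smul_def, Finset.mul_sum, Finset.mul_sum]
    refine Finset.sum_congr rfl fun l _ => ?_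
    ring
  have h2 : ∀ l (β : Fin r → Fin n), ∑ j, MvPolynomial.C (c (β, j)) * p j l = 0 := by
    intro l β
    refine coeff_block (L := L) (fun β => ∑ j, MvPolynomial.C (c (β, j)) * p j l) ?_
      (congrFun h1 l) β
    intro β
    refine lt_of_le_of_lt (MvPolynomial.totalDegree_finsetSum _ _) ?_
    rw [Finset.sup_lt_iff (by simp only [Nat.bot_eq_zero]; omega)]
    intro j _
    refine lt_of_le_of_lt (MvPolynomial.totalDegree_mul _ _) ?_
    rw [MvPolynomial.totalDegree_C, zero_add]
    exact hL j l
  intro q
  have h3 : ∑ j, c (q.1, j) • f j = 0 := by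
    have h4 : ∑ j, c (q.1, j) • f j =
        ∑ l, MvPolynomial.aeval t (∑ j, MvPolynomial.C (c (q.1, j)) * p j l) * y l := by
      simp only [map_sum, map_mul, MvPolynomial.aeval_C, Finset.sum_mul]
      rw [Finset.sum_comm]
      refine Finset.sum_congr rfl fun j _ => ?_
      rw [hp j, Algebra.smul_def, Finset.mul_sum]
      refine Finset.sum_congr rfl fun l _ => ?_
      ring
    rw [h4]
    refine Finset.sum_eq_zero fun l _ => ?_
    rw [h2 l q.1, map_zero, zero_mul]
  exact Fintype.linearIndependent_iff.mp hf _ h3 q.2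

end Pool.Agent.K6.H35.EP
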