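import Pool.Agent.K6.H35.EP.Box
import Pool.Agent.K6.H30.PS.Main

/-!
# Products of powers of polynomials in independent numbers
-/

set_option autoImplicit false

namespace Pool.Agent.K6.H35.EP

open Module Finset Polynomial
open Pool.Agent.HP778 Pool.Agent.HP778.KZ Pool.Agent.K6.H30.PS
open scoped Pointwise

variable {k Ω : Type} [Field k] [Field Ω] [Algebra k Ω] {r ρ : ℕ}

/-- the number of the orders at zero is at most the dimension -/
theorem card_orders_le {κ : Type} (S : Finset κ) (g : κ → k[X]) (e : κ → ℕ)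
    (hg : ∀ x ∈ S, ∃ u : k[X], g x = X ^ (e x) * u ∧ u.coeff 0 ≠ 0) :
    (S.image e).card ≤ finrank k (Submodule.span k (g '' (S : Set κ))) := by
  classical
  have hs : ∀ v : S.image e, ∃ n ∈ S, e n = v := fun v => by
    obtain ⟨n, hn, h⟩ := Finset.mem_image.mp v.2
    exact ⟨n, hn, h⟩
  choose s hs1 hs2 using hs
  have hind : LinearIndependent k (fun v : S.image e => g (s v)) := by
    rw [Fintype.linearIndependent_iff]
    intro c hc
    by_contra hcon
    push Not at hcon
    -- the smallest order with a nonzero coefficient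
    let T : Finset (S.image e) := Finset.univ.filter fun v => c v ≠ 0
    have hT : T.Nonempty := by
      obtain ⟨v, hv⟩ := hcon
      exact ⟨v, Finset.mem_filter.mpr ⟨Finset.mem_univ _, hv⟩⟩
    obtain ⟨v, hv, hmin⟩ := Finset.exists_min_image T (fun v => (v : ℕ)) hT
    have h1 := congrArg (fun P : k[X] => P.coeff (v : ℕ)) hc
    simp only [finsetSum_coeff, coeff_smul, smul_eq_mul, coeff_zero] at h1
    rw [Finset.sum_eq_single v] at h1
    · obtain ⟨u, hu1, hu2⟩ := hg _ (hs1 v)
      rw [hu1, hs2 v, coeff_X_pow_mul', if_pos le_rfl, Nat.sub_self] at h1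
      exact mul_ne_zero (Finset.mem_filter.mp hv).2 hu2 h1
    · intro v' _ hne
      by_cases hcv : c v' = 0
      · rw [hcv, zero_mul]
      · have h2 : (v : ℕ) ≤ v' := hmin v' (Finset.mem_filter.mpr ⟨Finset.mem_univ _, hcv⟩)
        have h3 : (v : ℕ) ≠ v' := fun h => hne (Subtype.ext h.symm)
        obtain ⟨u, hu1, _⟩ := hg _ (hs1 v')
        rw [hu1, hs2 v', coeff_X_pow_mul', if_neg (by omega), mul_zero]
    · intro h
      exact absurd (Finset.mem_univ _) h
  have h1 := finrank_span_eq_card hind
  rw [Fintype.card_coe] at h1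
  rw [← h1]
  have : FiniteDimensional k (Submodule.span k (g '' (S : Set κ))) :=
    FiniteDimensional.span_of_finite _ (S.finite_toSet.image g)
  apply Submodule.finrank_mono
  apply Submodule.span_mono
  rintro _ ⟨v, rfl⟩
  exact ⟨s v, hs1 v, rfl⟩

/-- the digits -/
theorem digits_injective {N : ℕ} (n n' : Fin r → ℕ) (hn : ∀ i, n i < N) (hn' : ∀ i, n' i < N)
    (h : ∑ i : Fin r, N ^ (i : ℕ) * n i = ∑ i : Fin r, N ^ (i : ℕ) * n' i) : n = n' := by
  induction r with
  | zero => exact Subsingleton.elim _ _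
  | succ r ih =>
    rw [Fin.sum_univ_succ, Fin.sum_univ_succ] at h
    simp only [Fin.val_zero, pow_zero, one_mul, Fin.val_succ, pow_succ'] at h
    have h1 : ∀ m : Fin (r + 1) → ℕ, ∑ i : Fin r, N * N ^ (i : ℕ) * m i.succ =
        N * ∑ i : Fin r, N ^ (i : ℕ) * m i.succ := by
      intro m
      rw [Finset.mul_sum]
      refine Finset.sum_congr rfl fun i _ => ?_
      ring
    rw [h1, h1] at h
    have hN : 0 < N := lt_of_le_of_lt (Nat.zero_le _) (hn 0)
    have h2 : n 0 = n' 0 := by
      have h3 := congrArg (fun z => z % N) h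
      simp only [Nat.add_mul_mod_self_left] at h3
      rwa [Nat.mod_eq_of_lt (hn 0), Nat.mod_eq_of_lt (hn' 0)] at h3
    have h3 : ∑ i : Fin r, N ^ (i : ℕ) * n i.succ = ∑ i : Fin r, N ^ (i : ℕ) * n' i.succ := by
      rw [h2] at h
      exact Nat.eq_of_mul_eq_mul_left hN (Nat.add_left_cancel h)
    have h4 := ih (fun i => n i.succ) (fun i => n' i.succ) (fun i => hn _) (fun i => hn' _) h3
    funext i
    refine Fin.cases h2 (fun i => ?_) i
    exact congrFun h4 i

theorem finrank_map_inj' {M N : Type} [AddCommGroup M] [Module k M] [AddCommGroup N] [Module k N]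
    {f : M →ₗ[k] N} (hf : Function.Injective f) (p : Submodule k M) :
    finrank k (p.map f) = finrank k p :=
  (Submodule.equivMapOfInjective f hf p).finrank_eq.symm

theorem finrank_units {t : Fin r → Ω} (ht : AlgebraicIndependent k t) {κ : Type}
    (G : κ → MvPolynomial (Fin r) k) {y : Ω} (hy : y ≠ 0) (S : Finset κ) :
    finrank k (Submodule.span k (G '' (S : Set κ))) =
      finrank k (Submodule.span k ((fun n => y * MvPolynomial.aeval t (G n)) '' (S : Set κ))) := by
  let Φ : MvPolynomial (Fin r) k →ₗ[k] Ω :=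
    (LinearMap.mulLeft k y).comp (MvPolynomial.aeval t : MvPolynomial (Fin r) k →ₐ[k] Ω).toLinearMap
  have hΦ : Function.Injective Φ := fun p q hpq => ht (mul_left_cancel₀ hy hpq)
  rw [← finrank_map_inj' hΦ, Submodule.map_span, ← Set.image_comp]
  rfl

theorem finrank_sb_le {κ : Type} (G : κ → MvPolynomial (Fin r) k)
    (σ : MvPolynomial (Fin r) k →ₐ[k] k[X]) (S : Finset κ) :
    finrank k (Submodule.span k ((fun n => σ (G n)) '' (S : Set κ))) ≤
    finrank k (Submodule.span k (G '' (S : Set κ))) := by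
  have hfdP : FiniteDimensional k (Submodule.span k (G '' (S : Set κ))) :=
    FiniteDimensional.span_of_finite _ (S.finite_toSet.image _)
  have h2 : (Submodule.span k (G '' (S : Set κ))).map σ.toLinearMap =
      Submodule.span k ((fun n => σ (G n)) '' (S : Set κ)) := by
    rw [Submodule.map_span, ← Set.image_comp]
    rfl
  rw [← h2]
  exact Submodule.finrank_map_le _ _

/-- the number of the elements which are separated by `ρ` orders -/
theorem orders_count {t : Fin r → Ω} (ht : AlgebraicIndependent k t) {κ : Type}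
    (G : κ → MvPolynomial (Fin r) k) (S : Finset κ)
    (σ : Fin ρ → MvPolynomial (Fin r) k →ₐ[k] k[X]) (e : Fin ρ → κ → ℕ)
    (he : ∀ l, ∀ n ∈ S, ∃ u : k[X], σ l (G n) = X ^ (e l n) * u ∧ u.coeff 0 ≠ 0)
    (hinj : Set.InjOn (fun n l => e l n) (S : Set κ)) {y : Ω} (hy : y ≠ 0) (D : ℕ)
    (hD : finrank k (Submodule.span k ((fun n => y * MvPolynomial.aeval t (G n)) ''
      (S : Set κ))) ≤ D) : S.card ≤ D ^ ρ := by
  classical
  have hord : ∀ l, (S.image (e l)).card ≤ D := by
    intro l
    refine (card_orders_le S (fun n => σ l (G n)) (e l) (he l)).trans ?_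
    refine (finrank_sb_le G (σ l) S).trans ?_
    rwa [finrank_units ht G hy S]
  have h1 : S.card ≤ (Fintype.piFinset fun l : Fin ρ => S.image (e l)).card := by
    apply Finset.card_le_card_of_injOn (fun n l => e l n)
    · intro n hn
      rw [Finset.mem_coe, Fintype.mem_piFinset]
      intro l
      exact Finset.mem_image.mpr ⟨n, hn, rfl⟩
    · exact hinj
  refine h1.trans ?_
  rw [Fintype.card_piFinset]
  calc _ ≤ ∏ _l : Fin ρ, D :=
        Finset.prod_le_prod (fun _ _ => Nat.zero_le _) (fun l _ => hord l)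
    _ = _ := by rw [Finset.prod_const, Finset.card_univ, Fintype.card_fin]

/-- the dimension -/
theorem units_dim {V : Submodule k Ω} (hV : Hyper V) {t : Fin r → Ω}
    (F : Submodule k Ω) [FiniteDimensional k F] {L : ℕ}
    (hind : ∀ n : ℕ, LinearIndependent k (fun p : (Fin r → Fin n) × Fin (finrank k F) =>
        (∏ i, t i ^ (L * (p.1 i : ℕ))) * ((Module.finBasis k F p.2 : F) : Ω)))
    {κ : Type} (G : κ → MvPolynomial (Fin r) k) (S : Finset κ) (y : Ω) (h N : ℕ)
    (hdeg : ∀ n ∈ S, (G n).totalDegree + 1 ≤ h * (N + 1))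
    (hS : ∀ n ∈ S, y * MvPolynomial.aeval t (G n) ∈ F * V) :
    finrank k (Submodule.span k ((fun n => y * MvPolynomial.aeval t (G n)) '' (S : Set κ))) ≤
      ((h + L) ^ r + finrank k F * finrank k F) * (Nat.sqrt N + 1) ^ r := by
  classical
  let c : Fin 1 → Ω := fun _ => y
  have h1 : Submodule.span k ((fun n => y * MvPolynomial.aeval t (G n)) '' (S : Set κ)) ≤
      EE k t c (h * (N + 1)) ⊓ comb (fun j => ((Module.finBasis k F j : F) : Ω)) V := by
    refine le_inf ?_ ?_
    · rw [Submodule.span_le]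
      rintro _ ⟨n, hn, rfl⟩
      have h2 := EE_mono (hdeg n hn) (aeval_mem_EE t c (G n) 0)
      have h5 : y * MvPolynomial.aeval t (G n) = MvPolynomial.aeval t (G n) * c 0 := mul_comm _ _
      change y * MvPolynomial.aeval t (G n) ∈ EE k t c (h * (N + 1))
      rw [h5]
      exact h2
    · refine le_trans ?_ (comb_le (Module.finBasis k F))
      rw [Submodule.span_le]
      rintro _ ⟨n, hn, rfl⟩
      exact hS n hn
  have : FiniteDimensional k (EE k t c (h * (N + 1)) ⊓
    comb (fun j => ((Module.finBasis k F j : F) : Ω)) V : Submodule k Ω) :=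
      Submodule.finiteDimensional_inf_left _ _
  refine (Submodule.finrank_mono h1).trans ?_
  refine (box_growth_sqrt hV _ hind c h N).trans ?_
  rw [Fintype.card_fin, mul_one]

/-! ### the choice of the points -/

/-- polynomials with the same orders at all points are equal up to a constant -/
theorem eq_of_rootMultiplicity [IsAlgClosed k] {p q : k[X]} (hp : p ≠ 0) (hq : q ≠ 0)
    (h : ∀ b, p.rootMultiplicity b = q.rootMultiplicity b) :
    ∃ c : k, c ≠ 0 ∧ p = C c * q := by
  classical
  have hr : p.roots = q.roots := by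
    ext b
    rw [count_roots, count_roots, h b]
  have hp' := (IsAlgClosed.splits p).eq_prod_roots
  have hq' := (IsAlgClosed.splits q).eq_prod_roots
  refine ⟨p.leadingCoeff / q.leadingCoeff,
    div_ne_zero (leadingCoeff_ne_zero.mpr hp) (leadingCoeff_ne_zero.mpr hq), ?_⟩
  have h1 : C (p.leadingCoeff / q.leadingCoeff) * q =
      C (p.leadingCoeff / q.leadingCoeff) *
        (C q.leadingCoeff * (q.roots.map fun a => X - C a).prod) := by
    rw [← hq']
  rw [h1, ← mul_assoc, ← C_mul, div_mul_cancel₀ _ (leadingCoeff_ne_zero.mpr hq), ← hr]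
  exact hp'

theorem rootMultiplicity_prod_pow (P : Fin ρ → k[X]) (hP : ∀ j, P j ≠ 0) (n : Fin ρ → ℕ) (b : k) :
    (∏ j, P j ^ n j).rootMultiplicity b = ∑ j, n j * (P j).rootMultiplicity b := by
  classical
  rw [← count_roots, roots_prod _ _ (Finset.prod_ne_zero_iff.mpr fun j _ => pow_ne_zero _ (hP j)),
    Multiset.count_bind]
  simp only [roots_pow, Multiset.count_nsmul, count_roots]
  rfl

/-- `ρ` points at which the orders determine the exponents -/
theorem exists_points [IsAlgClosed k] (P : Fin ρ → k[X]) (hP0 : ∀ j, P j ≠ 0)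
    (hP : ∀ n n' : Fin ρ → ℕ, ∀ c : k, c ≠ 0 → ∏ j, P j ^ n j = C c * ∏ j, P j ^ n' j → n = n') :
    ∃ b : Fin ρ → k, ∀ n n' : Fin ρ → ℕ,
      (∀ l, ∑ j, n j * (P j).rootMultiplicity (b l) = ∑ j, n' j * (P j).rootMultiplicity (b l)) →
        n = n' := by
  classical
  let v : k → (Fin ρ → ℚ) := fun b j => ((P j).rootMultiplicity b : ℚ)
  have htop : Submodule.span ℚ (Set.range v) = ⊤ := by
    by_contra hcon
    obtain ⟨φ, hφ0, hφ⟩ := Submodule.exists_le_ker_of_lt_top _ (lt_top_iff_ne_top.mpr hcon)
    let m : Fin ρ → ℚ := fun j => φ (Pi.single j 1)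
    have hφm : ∀ x, φ x = ∑ j, m j * x j := by
      intro x
      conv_lhs => rw [← Finset.univ_sum_single x]
      rw [map_sum]
      refine Finset.sum_congr rfl fun j _ => ?_
      have h1 : (Pi.single j (x j) : Fin ρ → ℚ) = x j • Pi.single j 1 := by
        rw [← Pi.single_smul, smul_eq_mul, mul_one]
      rw [h1, map_smul, smul_eq_mul, mul_comm]
    let D : ℕ := ∏ j, (m j).den
    have hD : 0 < D := Finset.prod_pos fun j _ => (m j).den_pos
    have hz : ∀ j, ∃ z : ℤ, (z : ℚ) = D * m j := by
      intro j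
      obtain ⟨c, hc⟩ : (m j).den ∣ D := Finset.dvd_prod_of_mem _ (Finset.mem_univ j)
      refine ⟨c * (m j).num, ?_⟩
      have h1 : ((m j).den : ℚ) * m j = (m j).num := Rat.den_mul_eq_num (m j)
      rw [hc]
      push_cast
      rw [← h1]
      ring
    choose z hz using hz
    have hnn : (fun j => (z j).toNat) = fun j => (-z j).toNat := by
      have h1 : ∀ b, (∏ j, P j ^ (z j).toNat).rootMultiplicity b =
          (∏ j, P j ^ (-z j).toNat).rootMultiplicity b := by
        intro b
        rw [rootMultiplicity_prod_pow P hP0, rootMultiplicity_prod_pow P hP0]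
        have h2 : φ (v b) = 0 := hφ (Submodule.subset_span ⟨b, rfl⟩)
        rw [hφm] at h2
        have h3 : ∑ j, (z j : ℚ) * ((P j).rootMultiplicity b : ℚ) = 0 := by
          have h4 : ∑ j, (z j : ℚ) * ((P j).rootMultiplicity b : ℚ) =
              D * ∑ j, m j * v b j := by
            rw [Finset.mul_sum]
            refine Finset.sum_congr rfl fun j _ => ?_
            rw [hz j]
            ring
          rw [h4, h2, mul_zero]
        have h5 : ∑ j, (z j : ℤ) * ((P j).rootMultiplicity b : ℤ) = 0 := by exact_mod_cast h3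
        have h6 : (∑ j, ((z j).toNat : ℤ) * ((P j).rootMultiplicity b : ℤ)) -
            ∑ j, ((-z j).toNat : ℤ) * ((P j).rootMultiplicity b : ℤ) = 0 := by
          rw [← Finset.sum_sub_distrib, ← h5]
          refine Finset.sum_congr rfl fun j _ => ?_
          rw [← sub_mul]
          congr 1
          omega
        have h7 := sub_eq_zero.mp h6
        exact_mod_cast h7
      obtain ⟨c, hc0, hc⟩ := eq_of_rootMultiplicity
        (Finset.prod_ne_zero_iff.mpr fun j _ => pow_ne_zero _ (hP0 j))
        (Finset.prod_ne_zero_iff.mpr fun j _ => pow_ne_zero _ (hP0 j)) h1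
      exact hP _ _ c hc0 hc
    apply hφ0
    ext j
    simp only [LinearMap.comp_apply, LinearMap.single_apply, LinearMap.zero_apply]
    have h1 : (z j).toNat = (-z j).toNat := congrFun hnn j
    have h2 : z j = 0 := by omega
    have h3 := hz j
    rw [h2, Int.cast_zero] at h3
    have h4 : (D : ℚ) ≠ 0 := by exact_mod_cast hD.ne'
    exact (mul_eq_zero.mp h3.symm).resolve_left h4
  obtain ⟨f, hf1, hf2, _⟩ := Submodule.exists_fun_fin_finrank_span_eq ℚ (Set.range v)
  have hfr : finrank ℚ (Submodule.span ℚ (Set.range v)) = ρ := by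
    rw [htop, finrank_top, Module.finrank_fin_fun]
  choose b hb using hf1
  refine ⟨fun l => b (Fin.cast hfr.symm l), fun n n' h => ?_⟩
  have h1 : ∀ x ∈ Submodule.span ℚ (Set.range f), ∑ j, ((n j : ℚ) - n' j) * x j = 0 := by
    intro x hx
    refine Submodule.span_induction ?_ ?_ ?_ ?_ hx
    · rintro _ ⟨l, rfl⟩
      rw [← hb l]
      have h2 := h (Fin.cast hfr l)
      simp only [Fin.cast_cast, Fin.cast_eq_self] at h2
      simp only [v, sub_mul, Finset.sum_sub_distrib]
      rw [sub_eq_zero]
      exact_mod_cast h2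
    · simp
    · intro x y _ _ hx hy
      simp only [Pi.add_apply, mul_add, Finset.sum_add_distrib, hx, hy, add_zero]
    · intro a x _ hx
      simp only [Pi.smul_apply, smul_eq_mul]
      rw [← mul_zero a, ← hx, Finset.mul_sum]
      refine Finset.sum_congr rfl fun j _ => ?_
      ring
  rw [hf2, htop] at h1
  funext j
  have h2 := h1 (Pi.single j 1) Submodule.mem_top
  rw [Finset.sum_eq_single j] at h2
  · rw [Pi.single_eq_same, mul_one, sub_eq_zero] at h2
    exact_mod_cast h2
  · intro j' _ hne
    rw [Pi.single_eq_of_ne hne, mul_zero]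
  · intro h
    exact absurd (Finset.mem_univ _) h

end Pool.Agent.K6.H35.EP
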