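import Pool.Agent.K6.H35.EP.Units
import Pool.Agent.K6.H35.EP.Grow

/-!
# Products of powers of polynomials in independent numbers: the count
-/

set_option autoImplicit false

namespace Pool.Agent.K6.H35.EP

open Module Finset Polynomial
open Pool.Agent.HP778 Pool.Agent.HP778.KZ Pool.Agent.K6.H30.PS
open scoped Pointwise

variable {k Ω : Type} [Field k] [Field Ω] [Algebra k Ω] {r ρ : ℕ}

/-- the products, as polynomials -/
noncomputable def GG (P : Fin r → Fin ρ → k[X]) (n : Fin r → Fin ρ → ℕ) :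
    MvPolynomial (Fin r) k :=
  ∏ i, ∏ j, Polynomial.aeval (MvPolynomial.X i : MvPolynomial (Fin r) k) (P i j) ^ n i j

theorem aeval_GG (t : Fin r → Ω) (P : Fin r → Fin ρ → k[X]) (n : Fin r → Fin ρ → ℕ) :
    MvPolynomial.aeval t (GG P n) = ∏ i, ∏ j, Polynomial.aeval (t i) (P i j) ^ n i j := by
  unfold GG
  simp only [map_prod, map_pow]
  refine Finset.prod_congr rfl fun i _ => Finset.prod_congr rfl fun j _ => ?_
  rw [← Polynomial.aeval_algHom_apply, MvPolynomial.aeval_X]

theorem totalDegree_GG_le (P : Fin r → Fin ρ → k[X]) (n : Fin r → Fin ρ → ℕ) {N : ℕ}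
    (hn : ∀ i j, n i j < N) : (GG P n).totalDegree ≤
      N * ∑ i, ∑ j, (Polynomial.aeval (MvPolynomial.X i : MvPolynomial (Fin r) k)
        (P i j)).totalDegree := by
  classical
  unfold GG
  refine (MvPolynomial.totalDegree_finsetProd _ _).trans ?_
  rw [Finset.mul_sum]
  refine Finset.sum_le_sum fun i _ => ?_
  refine (MvPolynomial.totalDegree_finsetProd _ _).trans ?_
  rw [Finset.mul_sum]
  refine Finset.sum_le_sum fun j _ => ?_
  refine (MvPolynomial.totalDegree_pow _ _).trans ?_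
  exact Nat.mul_le_mul_right _ (hn i j).le

/-- the substitution -/
noncomputable def sg (b : Fin r → k) (M : ℕ) : MvPolynomial (Fin r) k →ₐ[k] k[X] :=
  MvPolynomial.aeval fun i => C (b i) + X ^ (M ^ (i : ℕ))

theorem sg_GG (P : Fin r → Fin ρ → k[X]) (hP0 : ∀ i j, P i j ≠ 0) (b : Fin r → k) {M : ℕ}
    (hM : 1 ≤ M) (n : Fin r → Fin ρ → ℕ) :
    ∃ u : k[X], sg b M (GG P n) =
      X ^ (∑ i : Fin r, M ^ (i : ℕ) * ∑ j, n i j * (P i j).rootMultiplicity (b i)) * u ∧
      u.coeff 0 ≠ 0 := by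
  classical
  have hQ : ∀ i j, ∃ Q : k[X], P i j = (X - C (b i)) ^ ((P i j).rootMultiplicity (b i)) * Q ∧
      Q.eval (b i) ≠ 0 := by
    intro i j
    obtain ⟨Q, h1, h2⟩ := exists_eq_pow_rootMultiplicity_mul_and_not_dvd (P i j) (hP0 i j) (b i)
    exact ⟨Q, h1, fun h => h2 (dvd_iff_isRoot.mpr h)⟩
  choose Q hQ1 hQ2 using hQ
  refine ⟨∏ i, ∏ j, (Polynomial.aeval (C (b i) + X ^ (M ^ (i : ℕ)) : k[X]) (Q i j)) ^ n i j,
    ?_, ?_⟩
  · unfold GG
    simp only [map_prod, map_pow]
    rw [← Finset.prod_pow_eq_pow_sum, ← Finset.prod_mul_distrib]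
    refine Finset.prod_congr rfl fun i _ => ?_
    rw [Finset.mul_sum, ← Finset.prod_pow_eq_pow_sum, ← Finset.prod_mul_distrib]
    refine Finset.prod_congr rfl fun j _ => ?_
    rw [← Polynomial.aeval_algHom_apply]
    have h1 : sg b M (MvPolynomial.X i) = C (b i) + X ^ (M ^ (i : ℕ)) := by
      unfold sg
      rw [MvPolynomial.aeval_X]
    rw [h1]
    have h2 : Polynomial.aeval (C (b i) + X ^ (M ^ (i : ℕ)) : k[X]) (P i j) =
        X ^ (M ^ (i : ℕ) * (P i j).rootMultiplicity (b i)) *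
          Polynomial.aeval (C (b i) + X ^ (M ^ (i : ℕ)) : k[X]) (Q i j) := by
      conv_lhs => rw [hQ1 i j]
      rw [map_mul, map_pow, map_sub, aeval_X, aeval_C]
      congr 1
      rw [pow_mul]
      congr 1
      change C (b i) + X ^ M ^ (i : ℕ) - C (b i) = _
      ring
    rw [h2, mul_pow, ← pow_mul]
    congr 2
    ring
  · rw [coeff_zero_eq_eval_zero, eval_prod, Finset.prod_ne_zero_iff]
    intro i _
    rw [eval_prod, Finset.prod_ne_zero_iff]
    intro j _
    rw [eval_pow]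
    apply pow_ne_zero
    have h1 : (Polynomial.aeval (C (b i) + X ^ (M ^ (i : ℕ)) : k[X]) (Q i j)).eval 0 =
        (Q i j).eval (b i) := by
      rw [← coe_aeval_eq_eval, ← Polynomial.aeval_algHom_apply]
      rw [map_add, map_pow, aeval_X, aeval_C, zero_pow (by positivity), add_zero]
      rfl
    rw [h1]
    exact hQ2 i j

/-- **The count.** -/
theorem units_bound [IsAlgClosed k] {V : Submodule k Ω} (hV : Hyper V) {t : Fin r → Ω}
    (ht : AlgebraicIndependent k t) (F : Submodule k Ω) [FiniteDimensional k F]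
    (P : Fin r → Fin ρ → k[X])
    (hP : ∀ i, ∀ n n' : Fin ρ → ℕ, ∀ c : k, c ≠ 0 →
      ∏ j, P i j ^ n j = C c * ∏ j, P i j ^ n' j → n = n') :
    ∃ C : ℕ, ∀ y : Ω, y ≠ 0 → ∀ (N : ℕ) (S : Finset (Fin r → Fin ρ → ℕ)),
      (∀ n ∈ S, (∀ i j, n i j < N) ∧
        y * ∏ i, ∏ j, Polynomial.aeval (t i) (P i j) ^ n i j ∈ F * V) →
        S.card ≤ (C * (Nat.sqrt N + 1) ^ r) ^ ρ := by
  classical
  have hP0 : ∀ i j, P i j ≠ 0 := by
    intro i j h0
    have h1 := hP i (Pi.single j 1) (Pi.single j 2) 1 one_ne_zero ?_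
    · have h2 := congrFun h1 j
      rw [Pi.single_eq_same, Pi.single_eq_same] at h2
      omega
    · rw [Finset.prod_eq_zero (Finset.mem_univ j), Finset.prod_eq_zero (Finset.mem_univ j),
        mul_zero]
      · rw [h0, Pi.single_eq_same]
        simp
      · rw [h0, Pi.single_eq_same]
        simp
  have hb := fun i => exists_points (P i) (hP0 i) (hP i)
  choose b hb using hb
  let f := Module.finBasis k F
  have hf : LinearIndependent k (fun j => ((f j : F) : Ω)) :=
    f.linearIndependent.map' F.subtype F.ker_subtype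
  obtain ⟨L, hL, hind⟩ := exists_dilation_box ht _ hf
  let h : ℕ := ∑ i, ∑ j, (Polynomial.aeval (MvPolynomial.X i : MvPolynomial (Fin r) k)
        (P i j)).totalDegree + 1
  refine ⟨(h + L) ^ r + finrank k F * finrank k F, fun y hy N S hS => ?_⟩
  have hdim := units_dim hV F hind (GG P) S y h N (fun n hn => ?_) (fun n hn => ?_)
  · let dv : ℕ := ∑ i, ∑ j, ∑ l, (P i j).rootMultiplicity (b i l)
    let M : ℕ := dv * N + 1
    refine orders_count ht (GG P) S (fun l => sg (fun i => b i l) M)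
      (fun l n => ∑ i : Fin r, M ^ (i : ℕ) * ∑ j, n i j * (P i j).rootMultiplicity (b i l))
      (fun l n _ => sg_GG P hP0 (fun i => b i l) (Nat.le_add_left _ _) n) ?_ hy _ hdim
    intro n hn n' hn' heq
    have hlt : ∀ n ∈ S, ∀ i l, ∑ j, n i j * (P i j).rootMultiplicity (b i l) < M := by
      intro n hn i l
      have h1 : ∑ j, n i j * (P i j).rootMultiplicity (b i l) ≤
          ∑ j, N * (P i j).rootMultiplicity (b i l) :=
        Finset.sum_le_sum fun j _ => Nat.mul_le_mul_right _ ((hS n hn).1 i j).le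
      have h2 : ∑ j, N * (P i j).rootMultiplicity (b i l) ≤ N * dv := by
        rw [← Finset.mul_sum]
        apply Nat.mul_le_mul_left
        refine le_trans ?_ (Finset.single_le_sum
          (f := fun i => ∑ j, ∑ l, (P i j).rootMultiplicity (b i l))
          (fun _ _ => Nat.zero_le _) (Finset.mem_univ i))
        refine Finset.sum_le_sum fun j _ => ?_
        exact Finset.single_le_sum (f := fun l => (P i j).rootMultiplicity (b i l))
          (fun _ _ => Nat.zero_le _) (Finset.mem_univ l)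
      have h3 : M = N * dv + 1 := by
        simp only [M]
        ring
      omega
    funext i
    apply hb i
    intro l
    have h1 := digits_injective
      (fun i => ∑ j, n i j * (P i j).rootMultiplicity (b i l))
      (fun i => ∑ j, n' i j * (P i j).rootMultiplicity (b i l))
      (fun i => hlt n hn i l) (fun i => hlt n' hn' i l) (congrFun heq l)
    exact congrFun h1 i
  · have h1 := totalDegree_GG_le P n (hS n hn).1
    have h2 : h * (N + 1) = N * (∑ i, ∑ j, (Polynomial.aeval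
        (MvPolynomial.X i : MvPolynomial (Fin r) k) (P i j)).totalDegree) +
        (∑ i, ∑ j, (Polynomial.aeval
        (MvPolynomial.X i : MvPolynomial (Fin r) k) (P i j)).totalDegree) + N + 1 := by
      simp only [h]
      ring
    omega
  · rw [aeval_GG]
    exact (hS n hn).2

theorem units_real [IsAlgClosed k] {V : Submodule k Ω} (hV : Hyper V) {t : Fin r → Ω}
    (ht : AlgebraicIndependent k t) (F : Submodule k Ω) [FiniteDimensional k F]
    (P : Fin r → Fin ρ → k[X])
    (hP : ∀ i, ∀ n n' : Fin ρ → ℕ, ∀ c : k, c ≠ 0 →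
      ∏ j, P i j ^ n j = C c * ∏ j, P i j ^ n' j → n = n') :
    ∃ C : ℝ, ∀ y : Ω, y ≠ 0 → ∀ (N : ℕ) (S : Finset (Fin r → Fin ρ → ℕ)), 1 ≤ N →
      (∀ n ∈ S, (∀ i j, n i j < N) ∧
        y * ∏ i, ∏ j, Polynomial.aeval (t i) (P i j) ^ n i j ∈ F * V) →
        (S.card : ℝ) ≤ C * (N : ℝ) ^ ((r * ρ : ℝ) / 2) := by
  obtain ⟨C, hC⟩ := units_bound hV ht F P hP
  refine ⟨(C * 2 ^ r) ^ ρ, fun y hy N S hN hS => ?_⟩
  have h1 := hC y hy N S hS
  have h2 : (S.card : ℝ) ≤ (C * (((Nat.sqrt N + 1) ^ r : ℕ) : ℝ)) ^ ρ := by exact_mod_cast h1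
  refine h2.trans ?_
  have h3 : (N : ℝ) ^ ((r * ρ : ℝ) / 2) = ((N : ℝ) ^ ((r : ℝ) / 2)) ^ ρ := by
    rw [← Real.rpow_natCast, ← Real.rpow_mul (Nat.cast_nonneg _)]
    congr 1
    ring
  rw [h3, ← mul_pow, mul_assoc]
  exact pow_le_pow_left₀ (by positivity)
    (mul_le_mul_of_nonneg_left (sqrt_pow_le hN) (Nat.cast_nonneg _)) ρ

end Pool.Agent.K6.H35.EP
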