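import Pool.Agent.K6.H35.EP.Low
import Pool.Agent.K6.H30.PS.Basic

/-!
# The upper bound for the dimension
-/

set_option autoImplicit false

namespace Pool.Agent.K6.H35.EP

open Module Finset
open Pool.Agent.HP778 Pool.Agent.K6.H30.PS

variable {k Ω : Type} [Field k] [Field Ω] [Algebra k Ω] {r : ℕ}

theorem upper_bound {V : Submodule k Ω} (hV : Hyper V) {t : Fin r → Ω}
    (ht0 : ∀ i, t i ≠ 0) {m : ℕ} (f : Fin m → Ω) {L : ℕ} (hL : 1 ≤ L)
    (hind : ∀ n : ℕ, LinearIndependent k (fun p : (Fin r → Fin n) × Fin m =>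
        (∏ i, t i ^ (L * (p.1 i : ℕ))) * f p.2))
    {ι : Type} [Fintype ι] (γ : ι → Fin r → ℤ) (G : ℕ) (hG : ∀ j i, (γ j i).natAbs ≤ G)
    (d : ℕ) (c : ι → ℕ → Ω) (N : ℕ) (S : Finset ℕ) (hS : ∀ n ∈ S, n < N)
    (hval : ∀ n ∈ S, val t γ d c n ∈ comb f V) (b : ℕ) (hb : 1 ≤ b) :
    finrank k (Submodule.span k (val t γ d c '' (S : Set ℕ))) ≤
      Fintype.card ι * (d + 1) * (2 * G + L) ^ r * (N / b + 1) + m * m * b ^ r := by
  classical
  let E := b * (2 * G + L)
  let g : (ι × Fin (d + 1)) × (Fin (N / b + 1) × (Fin r → Fin E)) → Ω := fun x =>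
    c x.1.1 x.1.2 * chi t (γ x.1.1) ^ ((x.2.1 : ℕ) * b) * (∏ i, t i ^ (x.2.2 i : ℕ)) *
      ((∏ i, t i) ^ (b * G))⁻¹
  let W : Submodule k Ω := Submodule.span k (val t γ d c '' (S : Set ℕ))
  let C : Submodule k Ω := Submodule.span k (Set.range g)
  have : FiniteDimensional k W := FiniteDimensional.span_of_finite _ (S.finite_toSet.image _)
  have : FiniteDimensional k C := FiniteDimensional.span_of_finite _ (Set.finite_range _)
  have hτ : (∏ i, t i) ^ (b * G) ≠ 0 :=
    pow_ne_zero _ (Finset.prod_ne_zero_iff.mpr fun i _ => ht0 i)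
  have hC : finrank k C ≤ Fintype.card ι * (d + 1) * ((N / b + 1) * E ^ r) := by
    refine (finrank_range_le_card (R := k) g).trans ?_
    simp only [Fintype.card_prod, Fintype.card_fin, Fintype.card_fun]
    exact le_rfl
  -- the products
  have hmem : ∀ n ∈ S, ∀ β : Fin r → Fin b,
      (∏ i, t i ^ (L * (β i : ℕ))) * val t γ d c n ∈ C := by
    intro n hn β
    unfold val
    simp only [Finset.mul_sum, Finset.sum_mul]
    refine Submodule.sum_mem _ fun j _ => ?_
    rw [Finset.sum_range]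
    refine Submodule.sum_mem _ fun i _ => ?_
    have hpos : ∀ i', 0 ≤ ((n % b : ℕ) : ℤ) * γ j i' + (b * G : ℕ) := by
      intro i'
      have h1 := hG j i'
      have h2 : |((n % b : ℕ) : ℤ) * γ j i'| ≤ (b * G : ℕ) := by
        rw [abs_mul, Nat.abs_cast]
        push_cast
        have h3 : ((n : ℤ) % (b : ℤ)) ≤ b := by
          have := (Nat.mod_lt n (by omega : 0 < b)).le
          exact_mod_cast this
        have h4 : |γ j i'| ≤ G := by
          rw [Int.abs_eq_natAbs]
          exact_mod_cast h1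
        exact mul_le_mul h3 h4 (abs_nonneg _) (Int.natCast_nonneg _)
      have := neg_abs_le (((n % b : ℕ) : ℤ) * γ j i')
      linarith
    have hlt : ∀ i', (((n % b : ℕ) : ℤ) * γ j i' + (b * G : ℕ)).toNat + L * (β i' : ℕ) < E := by
      intro i'
      have h1 := hG j i'
      have h2 : |((n % b : ℕ) : ℤ) * γ j i'| ≤ (b * G : ℕ) := by
        rw [abs_mul, Nat.abs_cast]
        push_cast
        have h3 : ((n : ℤ) % (b : ℤ)) ≤ b := by
          have := (Nat.mod_lt n (by omega : 0 < b)).le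
          exact_mod_cast this
        have h4 : |γ j i'| ≤ G := by
          rw [Int.abs_eq_natAbs]
          exact_mod_cast h1
        exact mul_le_mul h3 h4 (abs_nonneg _) (Int.natCast_nonneg _)
      have h3 := le_abs_self (((n % b : ℕ) : ℤ) * γ j i')
      have h4 := hpos i'
      have h5 : L * ((β i' : ℕ) + 1) ≤ L * b := Nat.mul_le_mul_left _ (β i').2
      have h6 : E = 2 * (b * G) + L * b := by
        simp only [E]
        ring
      rw [Nat.mul_add, Nat.mul_one] at h5
      omega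
    let x : (ι × Fin (d + 1)) × (Fin (N / b + 1) × (Fin r → Fin E)) :=
      ((j, i), (⟨n / b, by
        have := Nat.div_le_div_right (c := b) (hS n hn).le
        omega⟩, fun i' => ⟨_, hlt i'⟩))
    have hx : (∏ i, t i ^ (L * (β i : ℕ))) * (c j i * (n : Ω) ^ (i : ℕ) * chi t (γ j) ^ n) =
        ((n : k) ^ (i : ℕ)) • g x := by
      have h1 : g x = c j i * chi t (γ j) ^ (n / b * b) *
          (∏ i', t i' ^ ((((n % b : ℕ) : ℤ) * γ j i' + (b * G : ℕ)).toNat + L * (β i' : ℕ))) *
          ((∏ i, t i) ^ (b * G))⁻¹ := rfl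
      have h2 : (∏ i', t i' ^ ((((n % b : ℕ) : ℤ) * γ j i' + (b * G : ℕ)).toNat +
          L * (β i' : ℕ))) = ((∏ i, t i) ^ (b * G) * chi t (γ j) ^ (n % b)) *
            ∏ i, t i ^ (L * (β i : ℕ)) := by
        rw [← prod_sh ht0 (γ j) (b * G) (n % b) hpos, ← Finset.prod_mul_distrib]
        refine Finset.prod_congr rfl fun i' _ => ?_
        rw [pow_add]
      have h3 : chi t (γ j) ^ n = chi t (γ j) ^ (n / b * b) * chi t (γ j) ^ (n % b) := by
        rw [← pow_add, Nat.div_add_mod']
      rw [h1, h2, h3, Algebra.smul_def, map_pow, map_natCast]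
      field_simp
    rw [hx]
    exact Submodule.smul_mem _ _ (Submodule.subset_span ⟨x, rfl⟩)
  let e : (Fin r → Fin b) ≃ Fin (b ^ r) := finFunctionFinEquiv
  have hprod := prod_space hV (fun q : Fin (b ^ r) => ∏ i, t i ^ (L * (e.symm q i : ℕ))) f ?_
    W C ?_ ?_
  · have hbr : 0 < b ^ r := Nat.pow_pos (by omega)
    have h1 : b ^ r * finrank k W ≤ b ^ r *
        (Fintype.card ι * (d + 1) * (2 * G + L) ^ r * (N / b + 1) + m * m * b ^ r) := by
      calc b ^ r * finrank k W ≤ finrank k C + (b ^ r * m) * (b ^ r * m - 1) := hprod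
        _ ≤ Fintype.card ι * (d + 1) * ((N / b + 1) * E ^ r) + (b ^ r * m) * (b ^ r * m) :=
          Nat.add_le_add hC (Nat.mul_le_mul_left _ (Nat.sub_le _ _))
        _ = _ := by
          simp only [E]
          rw [mul_pow]
          ring
    exact Nat.le_of_mul_le_mul_left h1 hbr
  · exact (hind b).comp (fun p : Fin (b ^ r) × Fin m => (e.symm p.1, p.2)) (by
      intro p q hpq
      have h1 := congrArg Prod.fst hpq
      have h2 := congrArg Prod.snd hpq
      exact Prod.ext (e.symm.injective h1) h2)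
  · intro w hw
    have h1 : W ≤ comb f V := by
      rw [Submodule.span_le]
      rintro _ ⟨n, hn, rfl⟩
      exact hval n hn
    exact h1 hw
  · intro w hw q
    have h1 : W ≤ C.comap (LinearMap.mulLeft k (∏ i, t i ^ (L * (e.symm q i : ℕ)))) := by
      rw [Submodule.span_le]
      rintro _ ⟨n, hn, rfl⟩
      exact hmem n hn _
    exact h1 hw

end Pool.Agent.K6.H35.EP
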